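import Pool.Agent.H891R2.DS.Defs
import Pool.Agent.H891R2.MT.All

set_option autoImplicit false

/-! The bracket of `Γ.link (sg R)` as a state sum. -/

namespace Pool.Agent.H891R2.DS.C3

open Finset LaurentPolynomial Pool.Agent.H891R2.Jones Pool.Agent.H891R2.MT

variable {k : ℕ}

theorem gg_sg {A : ℂ} (hA : A ≠ 0) {N : ℕ} (hN : N ≠ 0) (hNA : (N : ℂ) = -A^2 - A⁻¹^2) 
    (R : Finset (Fin k)) (e : Fin k) : gg A N (sg R e) = A ^ (-(sg R e)) := by
  have hN' : (N : ℂ) ≠ 0 := by exact_mod_cast hN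
  unfold gg sg
  rw [div_eq_iff hN', hNA]
  split_ifs with h
  · rw [zpow_neg_one, zpow_neg_one, neg_neg, zpow_one]
    field_simp
  · rw [zpow_one, zpow_one, zpow_neg_one]
    field_simp
    ring

theorem sum_sg (R S : Finset (Fin k)) : 
    ∑ e ∈ S, sg R e = ((S \ R).card : ℤ) - (S ∩ R).card := by
  have h : ∀ e ∈ S, sg R e = (if e ∈ R then (-1 : ℤ) else 1) := fun e _ => rfl
  rw [sum_congr rfl h, sum_ite]
  have h1 : S.filter (fun e => e ∈ R) = S ∩ R := by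
    ext x; simp
  have h2 : S.filter (fun e => ¬ e ∈ R) = S \ R := by
    ext x; simp
  rw [h1, h2]
  simp
  ring

theorem curves_pos (Γ : Ribbon k) (hk : 0 < k) (S : Finset (Fin k)) : 0 < Γ.curves S := by
  unfold Ribbon.curves
  have : Nonempty (Quot (Γ.Cor S)) := ⟨Quot.mk _ ((⟨0, hk⟩, true), true)⟩
  exact Nat.card_pos

theorem bracket_eq (Γ : Ribbon k) (hk : 0 < k) (R : Finset (Fin k)) :
    (Γ.link (sg R)).std.bracket = T (2 * R.card - k) *
      ∑ S : Finset (Fin k), T (2 * (S \ R).card - 2 * (S ∩ R).card) * 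
        (-T 2 - T (-2)) ^ (Γ.curves S - 1) := by
  have hP : Nonempty (Ribbon.Pt (sg R)) := ⟨⟨⟨0, hk⟩, 0, true⟩⟩
  apply MT.T6.eq_of_ev
  intro N hN
  have hN0 : N ≠ 0 := by omega
  have hN' : (N : ℂ) ≠ 0 := by exact_mod_cast hN0
  have hA := Ar_ne N hN
  have hd := Ar_d N hN
  apply mul_left_cancel₀ hN'
  rw [ev_bracket, MT.transfer Γ (sg R) hA hN0 hd, map_mul, map_sum, mul_sum, mul_sum]
  refine sum_congr rfl fun S _ => ?_
  rw [map_mul, map_pow, map_sub, map_neg, ev_T, ev_T, ev_T, ev_T]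
  have h1 : -(Ar N)^(2:ℤ) - (Ar N)^(-2:ℤ) = (N : ℂ) := by
    rw [hd, zpow_neg]
    norm_cast
    rw [inv_pow]
  rw [h1]
  have h2 : ∏ e ∈ Sᶜ, gg (Ar N) N (sg R e) = (Ar N) ^ (∑ e ∈ Sᶜ, -(sg R e)) := by
    rw [zpow_sum _ hA]
    exact prod_congr rfl fun e _ => gg_sg hA hN0 hd R e
  have h3 : ∏ e ∈ S, (Ar N) ^ (sg R e) = (Ar N) ^ (∑ e ∈ S, sg R e) := (zpow_sum _ hA _).symm
  rw [h2, h3, ← zpow_add₀ hA]
  have h4 : N ^ Γ.curves S = N * N ^ (Γ.curves S - 1) := by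
    rw [← pow_succ']
    congr 1
    have := curves_pos Γ hk S
    omega
  have h4' : (N : ℂ) ^ Γ.curves S = N * (N : ℂ) ^ (Γ.curves S - 1) := by exact_mod_cast h4
  rw [h4']
  have h5 : ∑ e ∈ S, sg R e + ∑ e ∈ Sᶜ, -(sg R e) = 
      (2 * (R.card : ℤ) - k) + (2 * ((S \ R).card : ℤ) - 2 * (S ∩ R).card) := by
    have e1 : ∑ e ∈ S, sg R e + ∑ e ∈ Sᶜ, sg R e = ∑ e, sg R e := sum_add_sum_compl S _
    have e2 := sum_sg R S
    have e3 := sum_sg R univ
    have e4 : (univ \ R).card + (univ ∩ R).card = k := by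
      rw [card_sdiff_add_card_inter, card_univ, Fintype.card_fin]
    have e5 : (univ ∩ R) = R := univ_inter R
    rw [e5] at e3 e4
    have e6 : ((univ \ R).card : ℤ) = k - R.card := by
      have : (((univ \ R).card + R.card : ℕ) : ℤ) = k := by exact_mod_cast e4
      push_cast at this
      linarith
    rw [sum_neg_distrib]
    rw [e6] at e3
    linarith
  rw [h5, zpow_add₀ hA]
  ring

end Pool.Agent.H891R2.DS.C3
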