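import Pool.Agent.H891R2.DS.Defs
import Pool.Agent.H891R2.MT.All
import Pool.Agent.H891R2.MT.T4b
import Pool.Agent.H891R2.MT.T6

set_option autoImplicit false

/-! D10: the lowest coefficient. -/

namespace Pool.Agent.H891R2.DS.D10

open Finset LaurentPolynomial Pool.Agent.H891R2.Jones Pool.Agent.H891R2.MT

variable {k : ℕ}

/-- the part of the state sum which belongs to the set `F` of edges outside `R` -/
noncomputable def blk (G : Ribbon k) (M F : Finset (Fin k)) : ℤ[T;T⁻¹] :=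
  ∑ Q ∈ M.powerset, T (2 * F.card - 2 * Q.card) * (-T 2 - T (-2)) ^ (G.curves (F ∪ Q) - 1)

theorem coeff_mul_T (f : ℤ[T;T⁻¹]) (m a : ℤ) : (f * T m).coeff a = f.coeff (a - m) := by
  have h := AddMonoidAlgebra.coeff_mul_single_eq_coeff_mul (r := (1 : ℤ)) (x := f) (m := m)
    (m₁ := a) (a - m) (fun m' _ => by constructor <;> intro h <;> omega)
  rw [mul_one] at h
  exact h

theorem coeff_d_pow (j : ℕ) :
    ((-T 2 - T (-2) : ℤ[T;T⁻¹]) ^ j).coeff (-(2 * j)) = (-1) ^ j := by
  induction j with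
  | zero =>
    rw [pow_zero]
    have := C_apply (R := ℤ) 1 0
    rw [map_one] at this
    simp [this]
  | succ j ih =>
    have h1 : (-T 2 - T (-2) : ℤ[T;T⁻¹]) ^ (j + 1) =
        -((-T 2 - T (-2)) ^ j * T 2) + -((-T 2 - T (-2)) ^ j * T (-2)) := by ring
    rw [h1, AddMonoidAlgebra.coeff_add, Finsupp.add_apply, AddMonoidAlgebra.coeff_neg,
      AddMonoidAlgebra.coeff_neg, Finsupp.neg_apply, Finsupp.neg_apply, coeff_mul_T, coeff_mul_T]
    have h2 : ((-T 2 - T (-2) : ℤ[T;T⁻¹]) ^ j).coeff (-(2 * ((j + 1 : ℕ) : ℤ)) - 2) = 0 := by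
      by_contra h
      have := (T4b.SIn_d.pow j _ h).1
      push_cast at this
      omega
    rw [h2]
    have h3 : (-(2 * ((j + 1 : ℕ) : ℤ)) - -2) = -(2 * j) := by push_cast; ring
    rw [h3, ih, pow_succ]
    ring

theorem GE.add {f g : ℤ[T;T⁻¹]} {m : ℤ} (hf : GE f m) (hg : GE g m) : GE (f + g) m := by
  intro j hj
  by_cases h : f.coeff j = 0
  · apply hg j
    intro h'
    apply hj
    rw [AddMonoidAlgebra.coeff_add, Finsupp.add_apply, h, h', add_zero]
  · exact hf j h

theorem GE.sum {ι : Type} (s : Finset ι) (f : ι → ℤ[T;T⁻¹]) {m : ℤ}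
    (h : ∀ i ∈ s, GE (f i) m) : GE (∑ i ∈ s, f i) m := by
  classical
  induction s using Finset.induction_on with
  | empty =>
    intro j hj
    rw [Finset.sum_empty] at hj
    exact absurd rfl hj
  | insert a s ha ih =>
    rw [Finset.sum_insert ha]
    exact GE.add (h a (Finset.mem_insert_self _ _))
      (ih (fun i hi => h i (Finset.mem_insert_of_mem hi)))

theorem GE.mono {f : ℤ[T;T⁻¹]} {m m' : ℤ} (hf : GE f m) (h : m' ≤ m) : GE f m' :=
  fun j hj => h.trans (hf j hj)

theorem GE.coeff_eq {f : ℤ[T;T⁻¹]} {m j : ℤ} (hf : GE f m) (h : j < m) : f.coeff j = 0 := by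
  by_contra hc
  have := hf j hc
  omega

/-- the state sum is the sum of the blocks -/
theorem PP_eq (Γ : Ribbon k) (R : Finset (Fin k)) :
    PP Γ R = ∑ F ∈ (Rᶜ).powerset, blk Γ R F := by
  unfold PP blk
  rw [← Finset.sum_product']
  refine Finset.sum_nbij' (fun S => (S \ R, S ∩ R)) (fun p => p.1 ∪ p.2) ?_ ?_ ?_ ?_ ?_
  · intro S _
    rw [Finset.mem_product, Finset.mem_powerset, Finset.mem_powerset]
    refine ⟨?_, Finset.inter_subset_right⟩
    intro x hx
    exact Finset.mem_compl.2 (Finset.mem_sdiff.1 hx).2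
  · intro p _
    exact Finset.mem_univ _
  · intro S _
    exact Finset.sdiff_union_inter S R
  · rintro ⟨F, Q⟩ hp
    rw [Finset.mem_product, Finset.mem_powerset, Finset.mem_powerset] at hp
    obtain ⟨h1, h2⟩ := hp
    have h3 : ∀ x ∈ F, x ∉ R := fun x hx => Finset.mem_compl.1 (h1 hx)
    refine Prod.ext ?_ ?_
    · show (F ∪ Q) \ R = F
      ext x
      simp only [Finset.mem_sdiff, Finset.mem_union]
      constructor
      · rintro ⟨h | h, h'⟩
        · exact h
        · exact absurd (h2 h) h'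
      · intro h
        exact ⟨Or.inl h, h3 x h⟩
    · show (F ∪ Q) ∩ R = Q
      ext x
      simp only [Finset.mem_inter, Finset.mem_union]
      constructor
      · rintro ⟨h | h, h'⟩
        · exact absurd h' (h3 x h)
        · exact h
      · intro h
        exact ⟨Or.inr h, h2 h⟩
  · intro S _
    simp only
    rw [Finset.sdiff_union_inter S R]

/-- D10: the lowest coefficient (uses D8, D9) -/
theorem lowest
    (blk_ge : ∀ (G : Ribbon k) (_ : 0 < k) (M F : Finset (Fin k)) (_ : Disjoint F M)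
      (_ : F.Nonempty)
      (_ : ∀ H : Finset (Fin k), (H ∩ M).Nonempty →
        (∀ e ∈ H ∩ M, G.comps (H.erase e) = G.comps H) →
        G.comps H + 2 * (H ∩ M).card + 1 ≤ G.verts)
      (_ : ∀ H : Finset (Fin k), H.Nonempty → G.comps H + 1 ≤ G.verts),
      GE (blk G M F) (4 * M.card - 2 * G.verts + 6))
    (blk_empty : ∀ (G : Ribbon k) (_ : 0 < k) (M : Finset (Fin k))
      (_ : ∀ H : Finset (Fin k), (H ∩ M).Nonempty →
        (∀ e ∈ H ∩ M, G.comps (H.erase e) = G.comps H) →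
        G.comps H + 2 * (H ∩ M).card + 1 ≤ G.verts),
      M.card + 1 ≤ G.verts ∧
      blk G M ∅ = (-1) ^ M.card * T (2 * M.card) * (-T 2 - T (-2)) ^ (G.verts - 1 - M.card))
    (G : Ribbon k) (hk : 0 < k) (M : Finset (Fin k))
    (hrank : ∀ H : Finset (Fin k), (H ∩ M).Nonempty →
      (∀ e ∈ H ∩ M, G.comps (H.erase e) = G.comps H) → G.comps H + 2 * (H ∩ M).card + 1 ≤ G.verts)
    (hloop : ∀ H : Finset (Fin k), H.Nonempty → G.comps H + 1 ≤ G.verts) :
    GE (PP G M) (4 * M.card - 2 * G.verts + 2) ∧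
      |(PP G M).coeff (4 * M.card - 2 * G.verts + 2)| = 1 := by
  obtain ⟨hrv, hE⟩ := blk_empty G hk M hrank
  have hge : ∀ F ∈ (Mᶜ).powerset.erase ∅, GE (blk G M F) (4 * M.card - 2 * G.verts + 6) := by
    intro F hF
    obtain ⟨h1, h2⟩ := Finset.mem_erase.1 hF
    rw [Finset.mem_powerset] at h2
    refine blk_ge G hk M F ?_ (Finset.nonempty_iff_ne_empty.2 h1) hrank hloop
    rw [Finset.disjoint_left]
    intro x hx
    exact Finset.mem_compl.1 (h2 hx)
  have hmem : (∅ : Finset (Fin k)) ∈ (Mᶜ).powerset := Finset.empty_mem_powerset _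
  have hsplit : PP G M = blk G M ∅ + ∑ F ∈ (Mᶜ).powerset.erase ∅, blk G M F := by
    rw [PP_eq, Finset.add_sum_erase _ _ hmem]
  have hrest : GE (∑ F ∈ (Mᶜ).powerset.erase ∅, blk G M F) (4 * M.card - 2 * G.verts + 6) :=
    GE.sum _ _ hge
  set N := G.verts - 1 - M.card with hN
  have hNc : (N : ℤ) = G.verts - 1 - M.card := by omega
  have hE0 : T4b.SIn (blk G M ∅) (0 + 2 * M.card + (-(N * 2))) (0 + 2 * M.card + N * 2) := by
    rw [hE]
    exact ((T4b.SIn_sgn _).mul (T4b.SIn.T _)).mul (T4b.SIn_d.pow N)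
  have hEge : GE (blk G M ∅) (4 * M.card - 2 * G.verts + 2) := by
    intro j hj
    have := (hE0 j hj).1
    omega
  constructor
  · rw [hsplit]
    exact GE.add hEge (GE.mono hrest (by omega))
  · have h1 : (∑ F ∈ (Mᶜ).powerset.erase ∅, blk G M F).coeff (4 * M.card - 2 * G.verts + 2) = 0 :=
      GE.coeff_eq hrest (by omega)
    rw [hsplit, AddMonoidAlgebra.coeff_add, Finsupp.add_apply, h1, add_zero]
    have h2 : blk G M ∅ = C ((-1) ^ M.card) * ((-T 2 - T (-2)) ^ N * T (2 * M.card)) := by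
      rw [hE, map_pow, map_neg, map_one]
      ring
    have h3 : (blk G M ∅).coeff (4 * M.card - 2 * G.verts + 2) =
        (-1) ^ M.card * (-1) ^ N := by
      rw [h2, ← LaurentPolynomial.smul_eq_C_mul, AddMonoidAlgebra.coeff_smul, Finsupp.smul_apply,
        coeff_mul_T, smul_eq_mul]
      have h4 : (4 * (M.card : ℤ) - 2 * G.verts + 2 - 2 * M.card) = -(2 * N) := by omega
      rw [h4, coeff_d_pow]
    rw [h3, ← pow_add, abs_pow, abs_neg, abs_one, one_pow]

end Pool.Agent.H891R2.DS.D10
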