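import Pool.Agent.H891R2.DS.Defs
import Pool.Agent.H891R2.MT.T2

set_option autoImplicit false

/-! D11, D12: the bracket as a state sum over the subgraphs of any state graph (helper708). -/

namespace Pool.Agent.H891R2.DS.D11

open Finset LaurentPolynomial Pool.Agent.H891R2.Jones Pool.Agent.H891R2.MT

variable {k : ℕ}

theorem aS_flipOn (S X : Finset (Fin k)) : T2.aS X * flipOn S = T2.aS (symmDiff S X) := by
  ext1 d
  have h1 : (flipOn S) d = if d.1 ∈ S then MT.flip d else d := rfl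
  rw [Equiv.Perm.mul_apply, h1, T2.aS_apply, T2.aS_apply]
  have h2 : (MT.flip d).1 = d.1 := rfl
  by_cases hS : d.1 ∈ S <;> by_cases hX : d.1 ∈ X <;>
    simp [hS, hX, h2, T2.flip_flip, Finset.mem_symmDiff]

/-- the curves of the state graph -/
theorem sg_curves' (Γ : Ribbon k) (S X : Finset (Fin k)) :
    (stateGraph Γ S).curves X = Γ.curves (symmDiff S X) := by
  rw [T2.curves_cyc, T2.curves_cyc]
  have h : (stateGraph Γ S).rot = flipOn S * Γ.rot := rfl
  rw [h, ← mul_assoc, aS_flipOn]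

theorem mem_Asm (R S : Finset (Fin k)) (e : Fin k) : e ∈ Asm R S ↔ (e ∈ S ↔ e ∉ R) := by
  simp [Asm]

theorem Asm_symmDiff (R S X : Finset (Fin k)) : Asm R (symmDiff S X) = symmDiff (Asm R S) X := by
  ext e
  simp only [mem_Asm, Finset.mem_symmDiff]
  tauto

theorem card_symmDiff' (M X : Finset (Fin k)) :
    (((symmDiff M X).card : ℕ) : ℤ) = M.card + (X \ M).card - (X ∩ M).card := by
  have h1 : symmDiff M X = (M \ X) ∪ (X \ M) := rfl
  have h2 : Disjoint (M \ X) (X \ M) := by
    rw [Finset.disjoint_left]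
    intro x hx hy
    simp only [Finset.mem_sdiff] at hx hy
    exact hx.2 hy.1
  rw [h1, Finset.card_union_of_disjoint h2]
  have h3 : (M \ X).card + (M ∩ X).card = M.card := Finset.card_sdiff_add_card_inter M X
  rw [Finset.inter_comm] at h3
  push_cast
  omega

theorem card_Asm (R S : Finset (Fin k)) :
    (((Asm R S).card : ℕ) : ℤ) = R.card + (S \ R).card - (S ∩ R).card := by
  have h : Asm R S = symmDiff R S := by
    ext e
    simp only [mem_Asm, Finset.mem_symmDiff]
    tauto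
  rw [h, card_symmDiff']

theorem expo (R S X : Finset (Fin k)) :
    2 * (R.card : ℤ) - k + (2 * ((symmDiff S X \ R).card : ℤ) - 2 * (symmDiff S X ∩ R).card) =
      2 * ((Asm R S).card : ℤ) - k + (2 * ((X \ Asm R S).card : ℤ) - 2 * (X ∩ Asm R S).card) := by
  have h1 := card_Asm R (symmDiff S X)
  rw [Asm_symmDiff, card_symmDiff'] at h1
  linarith

theorem sum_eq (Γ : Ribbon k) (R S : Finset (Fin k)) :
    T (2 * R.card - k) * PP Γ R = T (2 * (Asm R S).card - k) * PP (stateGraph Γ S) (Asm R S) := by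
  unfold PP
  rw [Finset.mul_sum, Finset.mul_sum]
  rw [← Equiv.sum_comp (Function.Involutive.toPerm (fun X => symmDiff S X)
      (fun X => symmDiff_symmDiff_cancel_left S X))
    (fun S' => (T (2 * R.card - k) : ℤ[T;T⁻¹]) * (T (2 * ((S' \ R).card : ℤ) - 2 * (S' ∩ R).card) *
      (-T 2 - T (-2)) ^ (Γ.curves S' - 1)))]
  refine Finset.sum_congr rfl fun X _ => ?_
  show (T (2 * R.card - k) : ℤ[T;T⁻¹]) *
      (T (2 * ((symmDiff S X \ R).card : ℤ) - 2 * (symmDiff S X ∩ R).card) *
        (-T 2 - T (-2)) ^ (Γ.curves (symmDiff S X) - 1)) = _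
  rw [sg_curves', ← mul_assoc, ← mul_assoc, ← T_add, ← T_add, expo]

/-- D11: the bracket as a state sum over the subgraphs of any state graph -/
theorem bracket_state 
    (hCA : ∀ (Γ : Ribbon k) (_ : 0 < k) (R : Finset (Fin k)),
      (Γ.link (fun e => if e ∈ R then -1 else 1)).std.bracket = T (2 * R.card - k) *
        ∑ S : Finset (Fin k), T (2 * (S \ R).card - 2 * (S ∩ R).card) * (-T 2 - T (-2)) ^ (Γ.curves S - 1))
    (Γ : Ribbon k) (hk : 0 < k) (R S : Finset (Fin k)) :
    (Γ.link (sg R)).std.bracket = T (2 * (Asm R S).card - k) * PP (stateGraph Γ S) (Asm R S) := by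
  rw [← sum_eq]
  exact hCA Γ hk R

theorem invert_PP (G : Ribbon k) (M : Finset (Fin k)) :
    invert (T (2 * M.card - k) * PP G M) = T (2 * (Mᶜ).card - k) * PP G Mᶜ := by
  unfold PP
  rw [map_mul, map_sum, Finset.mul_sum, Finset.mul_sum]
  refine Finset.sum_congr rfl fun X _ => ?_
  have e1 : X \ Mᶜ = X ∩ M := by
    ext e
    simp
  have e2 : X ∩ Mᶜ = X \ M := by
    ext e
    simp
  have e3 : ((Mᶜ.card : ℕ) : ℤ) = k - M.card := by
    rw [Finset.card_compl, Fintype.card_fin]
    have h4 : M.card ≤ k := by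
      have := Finset.card_le_univ M
      rwa [Fintype.card_fin] at this
    omega
  rw [e1, e2, e3, map_mul, map_pow, map_sub, map_neg, invert_T, invert_T, invert_T, invert_T, neg_neg,
    ← mul_assoc, ← mul_assoc, ← T_add, ← T_add]
  have e4 : -(2 * (M.card : ℤ) - k) + -(2 * ((X \ M).card : ℤ) - 2 * ((X ∩ M).card : ℤ)) =
      2 * ((k : ℤ) - M.card) - k + (2 * ((X ∩ M).card : ℤ) - 2 * ((X \ M).card : ℤ)) := by ring
  rw [e4]
  congr 2
  ring

/-- D12: the same with `A` and `A⁻¹` exchanged -/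
theorem bracket_state'
    (hCA : ∀ (Γ : Ribbon k) (_ : 0 < k) (R : Finset (Fin k)),
      (Γ.link (fun e => if e ∈ R then -1 else 1)).std.bracket = T (2 * R.card - k) *
        ∑ S : Finset (Fin k), T (2 * (S \ R).card - 2 * (S ∩ R).card) * (-T 2 - T (-2)) ^ (Γ.curves S - 1))
    (Γ : Ribbon k) (hk : 0 < k) (R S : Finset (Fin k)) (j : ℤ) :
    (Γ.link (sg R)).std.bracket.coeff j = 
      (T (2 * ((Asm R S)ᶜ).card - k) * PP (stateGraph Γ S) (Asm R S)ᶜ : ℤ[T;T⁻¹]).coeff (-j) := by
  rw [bracket_state hCA Γ hk R S, ← invert_PP, invert_apply, neg_neg]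

end Pool.Agent.H891R2.DS.D11
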