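import Pool.Agent.H891R2.DS.Defs
import Pool.Agent.H891R2.MT.T2

set_option autoImplicit false

/-! D2: the number of curves of a ribbon graph and its bridges. -/

namespace Pool.Agent.H891R2.DS.D2

open Finset LaurentPolynomial Pool.Agent.H891R2.Jones Pool.Agent.H891R2.MT Pool.Agent.H891R2.DS
open Equiv

variable {k : ℕ}

/-- D2a: the number of curves of an arbitrary ribbon graph -/
theorem curves_le (G : Ribbon k) (X : Finset (Fin k)) : 
    (G.curves X : ℤ) ≤ X.card - G.verts + 2 * G.comps X := by
  have h1 := T2.defect_mono G ∅ X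
  rw [Finset.union_empty, T2.defect_empty] at h1
  unfold T2.defect at h1
  linarith

theorem not_same (G : Ribbon k) (X : Finset (Fin k)) (e : Fin k)
    (h : G.comps X = G.comps (insert e X) + 1) :
    ¬ (T2.aS X * G.rot).SameCycle (e, false) (e, true) := by
  intro hs
  have h1 := T2.RC_of_cyc G X _ _ hs
  have h2 := T2.card_add_same (T2.RC G X) (e, false) (e, true) h1
  have h3 := T2.comps_insert G X e
  rw [h2] at h3
  have h4 : G.comps X = Nat.card (Quot (T2.RC G X)) := rfl
  omega

/-- D2b: a bridge joins two curves -/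
theorem curves_bridge (G : Ribbon k) (X : Finset (Fin k)) (e : Fin k) (he : e ∉ X) 
    (h : G.comps X = G.comps (insert e X) + 1) : G.curves X = G.curves (insert e X) + 1 := by
  have hne : ((e, false) : Fin k × Bool) ≠ (e, true) := by simp
  have h1 := (T2.cyc_swap (T2.aS X * G.rot) (e, false) (e, true) hne).2 (not_same G X e h)
  rw [T2.curves_cyc, T2.curves_cyc, T2.aS_insert X e he, mul_assoc, h1]

/-- D2c: the two sides of a bridge lie on the same curve -/
theorem bridge_sameCycle (Γ : Ribbon k) (X : Finset (Fin k)) (e : Fin k) (he : e ∈ X)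
    (h : Γ.comps (X.erase e) = Γ.comps X + 1) : 
    (stateGraph Γ X).rot.SameCycle (e, false) (e, true) := by
  have h0 : insert e (X.erase e) = X := Finset.insert_erase he
  have h1 : ¬ (T2.aS (X.erase e) * Γ.rot).SameCycle (e, false) (e, true) := 
    not_same Γ (X.erase e) e (by rw [h0]; exact h)
  have h2 := T2.same_of_not _ _ _ h1
  rw [← mul_assoc, ← T2.aS_insert (X.erase e) e (Finset.notMem_erase e X), h0] at h2
  exact h2

end Pool.Agent.H891R2.DS.D2
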