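import Pool.Agent.H891R2.DS.Defs
import Pool.Agent.H891R2.MT.T2
import Pool.Agent.H891R2.MT.T3a
import Pool.Agent.H891R2.CA.C5b

set_option autoImplicit false

/-!
D3: the number of regions of a state with some arcs.
-/

namespace Pool.Agent.H891R2.DS.D3

open Finset LaurentPolynomial Pool.Agent.H891R2.Jones Pool.Agent.H891R2.MT

variable {k : ℕ}

/-- the two darts of an edge on the same curve of the state `S \ H` are connected in `G | H` -/
theorem same_class (Γ : Ribbon k) (S H : Finset (Fin k)) (u v : Fin k × Bool)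
    (h : (stateGraph Γ (S \ H)).rot.SameCycle u v) :
    Quot.mk (T3a.rel (stateGraph Γ S) H) u = Quot.mk (T3a.rel (stateGraph Γ S) H) v := by
  have h1 := (T2.mk_eq_iff _ _ _).2 h
  have key : ∀ x y, (stateGraph Γ (S \ H)).rot x = y →
      Quot.mk (T3a.rel (stateGraph Γ S) H) x = Quot.mk (T3a.rel (stateGraph Γ S) H) y := by
    rintro x y rfl
    have h2 : Quot.mk (T3a.rel (stateGraph Γ S) H) x =
        Quot.mk (T3a.rel (stateGraph Γ S) H) ((stateGraph Γ S).rot x) :=
      Quot.sound (Or.inl rfl)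
    rw [h2]
    have e1 : (stateGraph Γ S).rot x = if (Γ.rot x).1 ∈ S then MT.flip (Γ.rot x) else Γ.rot x := rfl
    have e2 : (stateGraph Γ (S \ H)).rot x =
        if (Γ.rot x).1 ∈ S \ H then MT.flip (Γ.rot x) else Γ.rot x := rfl
    rw [e1, e2]
    by_cases hS : (Γ.rot x).1 ∈ S
    · by_cases hH : (Γ.rot x).1 ∈ H
      · have h3 : (Γ.rot x).1 ∉ S \ H := fun hh => (Finset.mem_sdiff.1 hh).2 hH
        rw [if_pos hS, if_neg h3]
        apply Quot.sound
        exact Or.inr ⟨hH, (T2.flip_flip _).symm⟩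
      · rw [if_pos hS, if_pos (Finset.mem_sdiff.2 ⟨hS, hH⟩)]
    · have h3 : (Γ.rot x).1 ∉ S \ H := fun hh => hS (Finset.mem_sdiff.1 hh).1
      rw [if_neg hS, if_neg h3]
  exact congrArg (Quot.lift (fun x => Quot.mk (T3a.rel (stateGraph Γ S) H) x) key) h1

theorem step
    (bridge_sameCycle : ∀ {k : ℕ} (Γ : Ribbon k) (X : Finset (Fin k)) (e : Fin k), e ∈ X →
      Γ.comps (X.erase e) = Γ.comps X + 1 →
      (stateGraph Γ X).rot.SameCycle (e, false) (e, true))
    (Γ : Ribbon k) (S H : Finset (Fin k)) (e : Fin k) (heS : e ∈ S) (heH : e ∉ H) :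
    Γ.comps ((S \ H).erase e) + (stateGraph Γ S).comps H ≤
      Γ.comps (S \ H) + (stateGraph Γ S).comps (insert e H) + 1 := by
  have he : e ∈ S \ H := Finset.mem_sdiff.2 ⟨heS, heH⟩
  have h1 := (T3a.comps_erase Γ (S \ H) e he).2
  rcases T3a.comps_insert (stateGraph Γ S) H e with ⟨_, h2⟩ | ⟨hne, h2⟩
  · omega
  · have h3 : Γ.comps ((S \ H).erase e) ≠ Γ.comps (S \ H) + 1 := by
      intro h4
      exact hne (same_class Γ S H _ _ (bridge_sameCycle Γ (S \ H) e he h4))
    omega

section main

variable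
    (sg_verts : ∀ {k : ℕ} (Γ : Ribbon k) (S : Finset (Fin k)), (stateGraph Γ S).verts = Γ.curves S)
    (sg_comps_univ : ∀ {k : ℕ} (Γ : Ribbon k) (S : Finset (Fin k)),
      (stateGraph Γ S).comps Finset.univ = Γ.comps Finset.univ)
    (sg_dual : ∀ {k : ℕ} (Γ : Ribbon k) (S : Finset (Fin k)),
      stateGraph (stateGraph Γ Finset.univ) Sᶜ = stateGraph Γ S)
    (planar_dual : ∀ {k : ℕ} (Γ : Ribbon k), Γ.Planar → (stateGraph Γ Finset.univ).Planar)
    (bridge_sameCycle : ∀ {k : ℕ} (Γ : Ribbon k) (X : Finset (Fin k)) (e : Fin k), e ∈ X →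
      Γ.comps (X.erase e) = Γ.comps X + 1 →
      (stateGraph Γ X).rot.SameCycle (e, false) (e, true))

include sg_verts in
theorem verts_add (Γ : Ribbon k) (hΓ : Γ.Planar) :
    Γ.verts + (stateGraph Γ Finset.univ).verts = k + 2 := by
  have h1 := T2.curves_eq Γ hΓ Finset.univ
  rw [hΓ.1, ← sg_verts Γ Finset.univ] at h1
  simp only [Finset.card_univ, Fintype.card_fin] at h1
  push_cast at h1
  omega

include sg_verts sg_dual planar_dual in
theorem at_empty (Γ : Ribbon k) (hΓ : Γ.Planar) (S : Finset (Fin k)) :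
    Γ.comps S + (stateGraph Γ Finset.univ).comps Sᶜ = 1 + (stateGraph Γ S).verts := by
  have h0 := verts_add sg_verts Γ hΓ
  have h1 := T2.curves_eq Γ hΓ S
  have h2 := T2.curves_eq (stateGraph Γ Finset.univ) (planar_dual Γ hΓ) Sᶜ
  rw [← sg_verts Γ S] at h1
  rw [← sg_verts (stateGraph Γ Finset.univ) Sᶜ, sg_dual Γ S] at h2
  have h3 : S.card + Sᶜ.card = k := by
    rw [Finset.card_add_card_compl, Fintype.card_fin]
  omega

include sg_dual bridge_sameCycle in
theorem step' (Γ : Ribbon k) (S H : Finset (Fin k)) (e : Fin k) (heH : e ∉ H) :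
    Γ.comps (S \ insert e H) + (stateGraph Γ Finset.univ).comps (Sᶜ \ insert e H) +
        (stateGraph Γ S).comps H ≤
      Γ.comps (S \ H) + (stateGraph Γ Finset.univ).comps (Sᶜ \ H) +
        (stateGraph Γ S).comps (insert e H) + 1 := by
  by_cases heS : e ∈ S
  · have h1 := step bridge_sameCycle Γ S H e heS heH
    have e1 : S \ insert e H = (S \ H).erase e := by
      ext x
      simp only [Finset.mem_sdiff, Finset.mem_insert, Finset.mem_erase]
      tauto
    have e2 : Sᶜ \ insert e H = Sᶜ \ H := by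
      ext x
      simp only [Finset.mem_sdiff, Finset.mem_insert, Finset.mem_compl]
      constructor
      · rintro ⟨h, h'⟩
        exact ⟨h, fun hh => h' (Or.inr hh)⟩
      · rintro ⟨h, h'⟩
        refine ⟨h, ?_⟩
        rintro (rfl | hh)
        · exact h heS
        · exact h' hh
    rw [e1, e2]
    omega
  · have heS' : e ∈ Sᶜ := Finset.mem_compl.2 heS
    have h1 := step bridge_sameCycle (stateGraph Γ Finset.univ) Sᶜ H e heS' heH
    rw [sg_dual Γ S] at h1
    have e1 : Sᶜ \ insert e H = (Sᶜ \ H).erase e := by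
      ext x
      simp only [Finset.mem_sdiff, Finset.mem_insert, Finset.mem_erase]
      tauto
    have e2 : S \ insert e H = S \ H := by
      ext x
      simp only [Finset.mem_sdiff, Finset.mem_insert]
      constructor
      · rintro ⟨h, h'⟩
        exact ⟨h, fun hh => h' (Or.inr hh)⟩
      · rintro ⟨h, h'⟩
        refine ⟨h, ?_⟩
        rintro (rfl | hh)
        · exact heS h
        · exact h' hh
    rw [e1, e2]
    omega

include sg_dual bridge_sameCycle in
theorem mono (Γ : Ribbon k) (S H U : Finset (Fin k)) :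
    Γ.comps (S \ (U ∪ H)) + (stateGraph Γ Finset.univ).comps (Sᶜ \ (U ∪ H)) +
        (stateGraph Γ S).comps H + H.card ≤
      Γ.comps (S \ H) + (stateGraph Γ Finset.univ).comps (Sᶜ \ H) +
        (stateGraph Γ S).comps (U ∪ H) + (U ∪ H).card := by
  induction U using Finset.induction_on with
  | empty => rw [Finset.empty_union]
  | insert e U heU ih =>
    rw [Finset.insert_union]
    by_cases he : e ∈ U ∪ H
    · rw [Finset.insert_eq_of_mem he]
      exact ih
    · have h1 := step' sg_dual bridge_sameCycle Γ S (U ∪ H) e he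
      rw [Finset.card_insert_of_notMem he]
      omega

include sg_verts sg_comps_univ sg_dual planar_dual bridge_sameCycle in
/-- D3: the number of regions of a state with some arcs (uses D1, D2c) -/
theorem regions (Γ : Ribbon k) (hΓ : Γ.Planar) (S H : Finset (Fin k)) :
    Γ.comps (S \ H) + (stateGraph Γ Finset.univ).comps (Sᶜ \ H) =
      1 + (stateGraph Γ S).comps H + H.card := by
  have h1 := at_empty sg_verts sg_dual planar_dual Γ hΓ S
  have h2 := mono sg_dual bridge_sameCycle Γ S ∅ H
  have h3 := mono sg_dual bridge_sameCycle Γ S H Finset.univ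
  have h4 := verts_add sg_verts Γ hΓ
  rw [Finset.union_empty, Finset.sdiff_empty, Finset.sdiff_empty, CA.C5b.comps_empty,
    Finset.card_empty] at h2
  rw [Finset.union_eq_left.2 (Finset.subset_univ H),
    Finset.sdiff_eq_empty_iff_subset.2 (Finset.subset_univ S),
    Finset.sdiff_eq_empty_iff_subset.2 (Finset.subset_univ Sᶜ),
    CA.C5b.comps_empty, CA.C5b.comps_empty, sg_comps_univ Γ S, hΓ.1, Finset.card_univ,
    Fintype.card_fin] at h3
  omega

end main

end Pool.Agent.H891R2.DS.D3
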