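import Pool.Agent.H891R2.DS.Defs

set_option autoImplicit false

/-!
D4: the boundary of a region is an even subgraph of the state graph.
-/

namespace Pool.Agent.H891R2.DS.D4

open Finset LaurentPolynomial Pool.Agent.H891R2.Jones Pool.Agent.H891R2.MT Pool.Agent.H891R2.DS

variable {k : ℕ}

theorem step (Γ : Ribbon k) (S : Finset (Fin k)) (W : Finset (Fin k × Bool))
    (hW : ∀ d, Γ.rot d ∈ W ↔ d ∈ W) (x : Fin k × Bool) :
    (if (stateGraph Γ S).rot x ∈ W then (1 : ZMod 2) else 0) - (if x ∈ W then 1 else 0) =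
      if ((stateGraph Γ S).rot x).1 ∈ bd W ∩ S then 1 else 0 := by
  have hr : (stateGraph Γ S).rot x = if (Γ.rot x).1 ∈ S then MT.flip (Γ.rot x) else Γ.rot x := rfl
  rw [hr]
  have hx := hW x
  generalize Γ.rot x = y at hx ⊢
  obtain ⟨e, b⟩ := y
  have h2 : (1 : ZMod 2) + 1 = 0 := by decide
  by_cases he : e ∈ S
  · simp only [he, if_true, MT.flip, mem_inter, and_true]
    simp only [bd, mem_filter, mem_univ, true_and]
    rw [if_congr hx.symm rfl rfl]
    cases b
    · by_cases h3 : (e, false) ∈ W <;> by_cases h4 : (e, true) ∈ W <;> simp [h3, h4]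
    · by_cases h3 : (e, false) ∈ W <;> by_cases h4 : (e, true) ∈ W <;> simp [h3, h4]
  · simp only [he, if_false, mem_inter, and_false]
    rw [if_congr hx rfl rfl, sub_self]

/-- D4: the boundary of a region is an even subgraph of the state graph -/
theorem even_region (Γ : Ribbon k) (S : Finset (Fin k)) (W : Finset (Fin k × Bool))
    (hW : ∀ d, Γ.rot d ∈ W ↔ d ∈ W) : EvenSet (stateGraph Γ S) (bd W ∩ S) := by
  classical
  intro d
  set r := (stateGraph Γ S).rot with hr
  set Cyc : Finset (Fin k × Bool) := univ.filter (fun x => r.SameCycle d x) with hC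
  have hmem : ∀ x, x ∈ Cyc ↔ r x ∈ Cyc := by
    intro x
    simp only [hC, mem_filter, mem_univ, true_and]
    exact Equiv.Perm.sameCycle_apply_right.symm
  have hshift : ∀ f : Fin k × Bool → ZMod 2, ∑ x ∈ Cyc, f (r x) = ∑ x ∈ Cyc, f x := by
    intro f
    exact sum_equiv r hmem (fun x _ => rfl)
  have h1 : ∑ x ∈ Cyc, (if x.1 ∈ bd W ∩ S then (1 : ZMod 2) else 0) = 0 := by
    rw [← hshift, ← sum_congr rfl (fun x _ => step Γ S W hW x), sum_sub_distrib,
      hshift (fun x => if x ∈ W then 1 else 0), sub_self]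
  rw [← sum_filter, sum_const, nsmul_eq_mul, mul_one] at h1
  have h2 : Even (Cyc.filter (fun x => x.1 ∈ bd W ∩ S)).card :=
    (ZMod.natCast_eq_zero_iff_even).mp h1
  have h3 : {d' : Fin k × Bool | r.SameCycle d d' ∧ d'.1 ∈ bd W ∩ S} =
      ((Cyc.filter (fun x => x.1 ∈ bd W ∩ S) : Finset (Fin k × Bool)) :
        Set (Fin k × Bool)) := by
    ext x
    simp [hC]
  rw [h3, Set.ncard_coe_finset]
  exact h2

end Pool.Agent.H891R2.DS.D4
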