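import Pool.Agent.H891R2.DS.Defs
import Pool.Agent.H891R2.CA.C5a

set_option autoImplicit false

/-!
D5: subgraphs without bridges of a state graph.
-/

namespace Pool.Agent.H891R2.DS.D5

open Finset LaurentPolynomial Pool.Agent.H891R2.Jones Pool.Agent.H891R2.MT
open Pool.Agent.H891R2.CA.C5a (rel comps_eq comps_empty comps_insert_of_eq cls mem_cls cls_rot)

variable {k : ℕ}

lemma mem_bd (W : Finset (Fin k × Bool)) (e : Fin k) :
    e ∈ bd W ↔ ¬ ((e, false) ∈ W ↔ (e, true) ∈ W) := by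
  unfold bd
  simp

/-- the part of the boundary of a region which consists of edges in `S₀` -/
noncomputable def XX (Γ₀ : Ribbon k) (S₀ H : Finset (Fin k)) (w : Quot (rel Γ₀ (S₀ \ H))) :
    Finset (Fin k) := bd (cls Γ₀ (S₀ \ H) w) ∩ S₀

lemma XX_sub (Γ₀ : Ribbon k) (S₀ H : Finset (Fin k)) (w : Quot (rel Γ₀ (S₀ \ H))) (e : Fin k)
    (he : e ∈ XX Γ₀ S₀ H w) : e ∈ H ∧ e ∈ S₀ := by
  unfold XX at he
  rw [mem_inter, mem_bd, mem_cls, mem_cls] at he
  refine ⟨?_, he.2⟩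
  by_contra hH
  apply he.1
  have : Quot.mk (rel Γ₀ (S₀ \ H)) (e, false) = Quot.mk (rel Γ₀ (S₀ \ H)) (e, true) :=
    Quot.sound (Or.inr ⟨mem_sdiff.2 ⟨he.2, hH⟩, rfl⟩)
  rw [this]

/-- double counting -/
lemma count (Γ₀ : Ribbon k) (S₀ H Y : Finset (Fin k))
    (hd : ∀ e ∈ H, e ∈ S₀ →
      Quot.mk (rel Γ₀ (S₀ \ H)) (e, false) ≠ Quot.mk (rel Γ₀ (S₀ \ H)) (e, true))
    [Fintype (Quot (rel Γ₀ (S₀ \ H)))] :
    ∑ w : Quot (rel Γ₀ (S₀ \ H)), (XX Γ₀ S₀ H w ∩ Y).card = 2 * (H ∩ S₀ ∩ Y).card := by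
  classical
  have e1 : ∀ w : Quot (rel Γ₀ (S₀ \ H)), (XX Γ₀ S₀ H w ∩ Y).card =
      ∑ e ∈ H ∩ S₀ ∩ Y, if e ∈ XX Γ₀ S₀ H w then 1 else 0 := by
    intro w
    rw [← card_filter]
    congr 1
    ext e
    simp only [mem_inter, mem_filter]
    constructor
    · rintro ⟨h2, h3⟩
      exact ⟨⟨XX_sub Γ₀ S₀ H w e h2, h3⟩, h2⟩
    · rintro ⟨⟨-, h3⟩, h2⟩
      exact ⟨h2, h3⟩
  rw [sum_congr rfl fun w _ => e1 w, sum_comm]
  have e2 : ∀ e ∈ H ∩ S₀ ∩ Y,
      (∑ w : Quot (rel Γ₀ (S₀ \ H)), if e ∈ XX Γ₀ S₀ H w then 1 else 0) = 2 := by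
    intro e he
    rw [← card_filter]
    have he1 := mem_inter.1 (mem_inter.1 he).1
    have hne := hd e he1.1 he1.2
    have : (univ.filter fun w : Quot (rel Γ₀ (S₀ \ H)) => e ∈ XX Γ₀ S₀ H w) =
        {Quot.mk (rel Γ₀ (S₀ \ H)) (e, false), Quot.mk (rel Γ₀ (S₀ \ H)) (e, true)} := by
      ext w
      simp only [mem_filter, mem_univ, true_and, mem_insert, mem_singleton]
      unfold XX
      rw [mem_inter, mem_bd, mem_cls, mem_cls]
      constructor
      · rintro ⟨h, -⟩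
        by_cases h2 : Quot.mk (rel Γ₀ (S₀ \ H)) (e, false) = w
        · exact Or.inl h2.symm
        · right
          by_contra h3
          exact h ⟨fun h4 => absurd h4 h2, fun h4 => absurd h4.symm h3⟩
      · rintro (rfl | rfl)
        · exact ⟨fun h => hne (h.1 rfl).symm, he1.2⟩
        · exact ⟨fun h => hne (h.2 rfl), he1.2⟩
    rw [this, card_pair hne]
  rw [sum_congr rfl e2, sum_const, smul_eq_mul, mul_comm]

/-- a region without boundary in `S₀` is closed under the flips of the edges in `S₀` -/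
lemma closed (Γ₀ : Ribbon k) (S₀ H : Finset (Fin k)) (w : Quot (rel Γ₀ (S₀ \ H)))
    (hw : XX Γ₀ S₀ H w = ∅) (a b : Fin k × Bool) (h : rel Γ₀ S₀ a b) :
    (a ∈ cls Γ₀ (S₀ \ H) w) = (b ∈ cls Γ₀ (S₀ \ H) w) := by
  obtain ⟨e, x⟩ := a
  rcases h with h3 | ⟨h3, rfl⟩
  · rw [← h3]
    exact propext (cls_rot Γ₀ (S₀ \ H) w (e, x)).symm
  · have h4 : e ∉ bd (cls Γ₀ (S₀ \ H) w) := by
      intro h5
      have h6 : e ∈ XX Γ₀ S₀ H w := mem_inter.2 ⟨h5, h3⟩
      rw [hw] at h6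
      exact notMem_empty e h6
    rw [mem_bd, not_not] at h4
    cases x
    · exact propext h4
    · exact propext h4.symm

/-- membership in a region without boundary only depends on the class -/
lemma closed' (Γ₀ : Ribbon k) (S₀ H : Finset (Fin k)) (w : Quot (rel Γ₀ (S₀ \ H)))
    (hw : XX Γ₀ S₀ H w = ∅) (a b : Fin k × Bool)
    (h : Quot.mk (rel Γ₀ S₀) a = Quot.mk (rel Γ₀ S₀) b) :
    a ∈ cls Γ₀ (S₀ \ H) w ↔ b ∈ cls Γ₀ (S₀ \ H) w := by
  have h3 : Quot.lift (fun a => a ∈ cls Γ₀ (S₀ \ H) w) (closed Γ₀ S₀ H w hw) (Quot.mk _ a) =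
      Quot.lift (fun a => a ∈ cls Γ₀ (S₀ \ H) w) (closed Γ₀ S₀ H w hw) (Quot.mk _ b) := by
    rw [h]
  exact Iff.of_eq h3

/-- one side (black or white) -/
lemma side (Γ₀ : Ribbon k) (S₀ H M : Finset (Fin k))
    (hd : ∀ e ∈ H, e ∈ S₀ →
      Quot.mk (rel Γ₀ (S₀ \ H)) (e, false) ≠ Quot.mk (rel Γ₀ (S₀ \ H)) (e, true))
    (hdom : ∀ w, (XX Γ₀ S₀ H w).Nonempty →
      (XX Γ₀ S₀ H w ∩ M).card + 2 ≤ (XX Γ₀ S₀ H w \ M).card) :
    (H ∩ S₀ ∩ M).card + Γ₀.comps (S₀ \ H) ≤ ((H ∩ S₀) \ M).card + Γ₀.comps S₀ ∧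
    ((H ∩ S₀).Nonempty →
      (H ∩ S₀ ∩ M).card + Γ₀.comps (S₀ \ H) + 1 ≤ ((H ∩ S₀) \ M).card + Γ₀.comps S₀) := by
  classical
  have : Fintype (Quot (rel Γ₀ (S₀ \ H))) := Fintype.ofFinite _
  have : Fintype (Quot (rel Γ₀ S₀)) := Fintype.ofFinite _
  obtain ⟨E, hE⟩ : ∃ E : Finset (Quot (rel Γ₀ (S₀ \ H))),
      E = univ.filter (fun w => XX Γ₀ S₀ H w = ∅) := ⟨_, rfl⟩
  have hmemE : ∀ w, w ∈ E ↔ XX Γ₀ S₀ H w = ∅ := by intro w; rw [hE]; simp
  -- the map to the classes of `S₀`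
  have hex : ∀ w : Quot (rel Γ₀ (S₀ \ H)), ∃ d, Quot.mk (rel Γ₀ (S₀ \ H)) d = w :=
    fun w => Quot.exists_rep w
  choose r hr using hex
  have hrm : ∀ w, r w ∈ cls Γ₀ (S₀ \ H) w := fun w => by rw [mem_cls]; exact hr w
  have hinj : Set.InjOn (fun w => Quot.mk (rel Γ₀ S₀) (r w)) (E : Set (Quot (rel Γ₀ (S₀ \ H)))) := by
    intro w hw w' _ h
    have h1 := (closed' Γ₀ S₀ H w ((hmemE w).1 hw) (r w) (r w') h).1 (hrm w)
    rw [mem_cls, hr] at h1
    exact h1.symm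
  have hcard : (E.image (fun w => Quot.mk (rel Γ₀ S₀) (r w))).card = E.card :=
    card_image_of_injOn hinj
  have hcomps : Γ₀.comps S₀ = (univ : Finset (Quot (rel Γ₀ S₀))).card := by
    rw [comps_eq, Nat.card_eq_fintype_card, card_univ]
  have hle : E.card ≤ Γ₀.comps S₀ := by
    rw [← hcard, hcomps]
    exact card_le_card (subset_univ _)
  have hlt : (H ∩ S₀).Nonempty → E.card + 1 ≤ Γ₀.comps S₀ := by
    rintro ⟨e, he⟩
    rw [mem_inter] at he
    rw [← hcard, hcomps]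
    apply card_lt_card
    rw [ssubset_iff_of_subset (subset_univ _)]
    refine ⟨Quot.mk (rel Γ₀ S₀) (e, false), mem_univ _, ?_⟩
    intro hmem
    rw [mem_image] at hmem
    obtain ⟨w, hw, hwe⟩ := hmem
    have hw0 := (hmemE w).1 hw
    have h1 := (closed' Γ₀ S₀ H w hw0 (r w) (e, false) hwe).1 (hrm w)
    have h2 : e ∉ bd (cls Γ₀ (S₀ \ H) w) := by
      intro h5
      have h6 : e ∈ XX Γ₀ S₀ H w := mem_inter.2 ⟨h5, he.2⟩
      rw [hw0] at h6
      exact notMem_empty e h6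
    rw [mem_bd, not_not] at h2
    have h3 := h2.1 h1
    rw [mem_cls] at h1 h3
    exact hd e he.1 he.2 (h1.trans h3.symm)
  have hsum : ∑ w : Quot (rel Γ₀ (S₀ \ H)), ((XX Γ₀ S₀ H w ∩ M).card + 2) ≤
      ∑ w : Quot (rel Γ₀ (S₀ \ H)), ((XX Γ₀ S₀ H w \ M).card + if w ∈ E then 2 else 0) := by
    apply sum_le_sum
    intro w _
    by_cases hw : XX Γ₀ S₀ H w = ∅
    · rw [if_pos ((hmemE w).2 hw), hw]; simp
    · rw [if_neg (fun h => hw ((hmemE w).1 h))]
      have := hdom w (nonempty_iff_ne_empty.2 hw)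
      omega
  have e1 : ∀ Y : Finset (Fin k), Y ∩ Mᶜ = Y \ M := fun Y => (sdiff_eq_inter_compl Y M).symm
  have h4 : ∑ w : Quot (rel Γ₀ (S₀ \ H)), (XX Γ₀ S₀ H w \ M).card = 2 * ((H ∩ S₀) \ M).card := by
    have := count Γ₀ S₀ H Mᶜ hd
    rw [e1] at this
    rw [← this]
    exact sum_congr rfl fun w _ => by rw [e1]
  have h5 : ∑ w : Quot (rel Γ₀ (S₀ \ H)), (if w ∈ E then 2 else 0) = 2 * E.card := by
    rw [← sum_filter, sum_const, smul_eq_mul, mul_comm]
    congr 2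
    ext w
    simp
  rw [sum_add_distrib, sum_add_distrib, count Γ₀ S₀ H M hd, h4, h5, sum_const, card_univ,
    smul_eq_mul, ← Nat.card_eq_fintype_card, ← comps_eq] at hsum
  constructor
  · omega
  · intro hn
    have := hlt hn
    omega

/-- D5: subgraphs without bridges of a state graph (uses D1, D3, D4) -/
theorem rank_bridgeless
    (regions : ∀ (Γ : Ribbon k), Γ.Planar → ∀ (S H : Finset (Fin k)),
      Γ.comps (S \ H) + (stateGraph Γ Finset.univ).comps (Sᶜ \ H) =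
        1 + (stateGraph Γ S).comps H + H.card)
    (even_region : ∀ (Γ : Ribbon k) (S : Finset (Fin k)) (W : Finset (Fin k × Bool)),
      (∀ d, Γ.rot d ∈ W ↔ d ∈ W) → EvenSet (stateGraph Γ S) (bd W ∩ S))
    (sg_dual : ∀ (Γ : Ribbon k) (S : Finset (Fin k)),
      stateGraph (stateGraph Γ Finset.univ) Sᶜ = stateGraph Γ S)
    (Γ : Ribbon k) (hΓ : Γ.Planar) (S M : Finset (Fin k))
    (hM : Dom (stateGraph Γ S) M) (H : Finset (Fin k)) (hne : H.Nonempty)
    (hH : ∀ e ∈ H, (stateGraph Γ S).comps (H.erase e) = (stateGraph Γ S).comps H) :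
    (H ∩ M).card + H.card + (stateGraph Γ S).comps H + 1 ≤
      (H \ M).card + (stateGraph Γ S).verts := by
  classical
  have hR := regions Γ hΓ S
  have h0 := hR ∅
  rw [sdiff_empty, sdiff_empty, card_empty, comps_empty] at h0
  have hRH := hR H
  have hHpos : 0 < H.card := card_pos.2 hne
  -- black side
  have hdb : ∀ e ∈ H, e ∈ S →
      Quot.mk (rel Γ (S \ H)) (e, false) ≠ Quot.mk (rel Γ (S \ H)) (e, true) := by
    intro e he heS h
    have h2 := comps_insert_of_eq Γ (S \ H) e h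
    have h3 : insert e (S \ H) = S \ H.erase e := by
      ext x
      simp only [mem_insert, mem_sdiff, mem_erase, not_and, ne_eq]
      constructor
      · rintro (rfl | ⟨h4, h5⟩)
        · exact ⟨heS, fun h6 => absurd rfl h6⟩
        · exact ⟨h4, fun _ => h5⟩
      · rintro ⟨h4, h5⟩
        by_cases h6 : x = e
        · exact Or.inl h6
        · exact Or.inr ⟨h4, h5 h6⟩
    have h4 : Sᶜ \ H.erase e = Sᶜ \ H := by
      ext x
      simp only [mem_sdiff, mem_compl, mem_erase, not_and, ne_eq]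
      constructor
      · rintro ⟨h4, h5⟩
        exact ⟨h4, h5 (fun h6 => h4 (h6 ▸ heS))⟩
      · rintro ⟨h4, h5⟩
        exact ⟨h4, fun _ => h5⟩
    have h5 := hR (H.erase e)
    rw [hH e he, card_erase_of_mem he, ← h3, h2, h4] at h5
    omega
  -- white side
  have hdw : ∀ e ∈ H, e ∈ Sᶜ →
      Quot.mk (rel (stateGraph Γ univ) (Sᶜ \ H)) (e, false) ≠
        Quot.mk (rel (stateGraph Γ univ) (Sᶜ \ H)) (e, true) := by
    intro e he heS h
    have h2 := comps_insert_of_eq (stateGraph Γ univ) (Sᶜ \ H) e h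
    rw [mem_compl] at heS
    have h3 : insert e (Sᶜ \ H) = Sᶜ \ H.erase e := by
      ext x
      simp only [mem_insert, mem_sdiff, mem_erase, mem_compl, not_and, ne_eq]
      constructor
      · rintro (rfl | ⟨h4, h5⟩)
        · exact ⟨heS, fun h6 => absurd rfl h6⟩
        · exact ⟨h4, fun _ => h5⟩
      · rintro ⟨h4, h5⟩
        by_cases h6 : x = e
        · exact Or.inl h6
        · exact Or.inr ⟨h4, h5 h6⟩
    have h4 : S \ H.erase e = S \ H := by
      ext x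
      simp only [mem_sdiff, mem_erase, not_and, ne_eq]
      constructor
      · rintro ⟨h4, h5⟩
        exact ⟨h4, h5 (fun h6 => heS (h6 ▸ h4))⟩
      · rintro ⟨h4, h5⟩
        exact ⟨h4, fun _ => h5⟩
    have h5 := hR (H.erase e)
    rw [hH e he, card_erase_of_mem he, ← h3, h2, h4] at h5
    omega
  have hb := side Γ S H M hdb (fun w hw => hM _ hw
    (even_region Γ S (cls Γ (S \ H) w) (cls_rot Γ (S \ H) w)))
  have hw := side (stateGraph Γ univ) Sᶜ H M hdw (fun w hw => hM _ hw (by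
    have := even_region (stateGraph Γ univ) Sᶜ (cls (stateGraph Γ univ) (Sᶜ \ H) w)
      (cls_rot (stateGraph Γ univ) (Sᶜ \ H) w)
    rw [sg_dual] at this
    exact this))
  -- cardinalities
  have hc1 : (H ∩ M).card = (H ∩ S ∩ M).card + (H ∩ Sᶜ ∩ M).card := by
    rw [← card_union_of_disjoint]
    · congr 1
      ext x
      simp only [mem_inter, mem_union, mem_compl]
      tauto
    · rw [disjoint_left]
      intro x hx hx'
      simp only [mem_inter, mem_compl] at hx hx'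
      tauto
  have hc2 : (H \ M).card = ((H ∩ S) \ M).card + ((H ∩ Sᶜ) \ M).card := by
    rw [← card_union_of_disjoint]
    · congr 1
      ext x
      simp only [mem_inter, mem_union, mem_compl, mem_sdiff]
      tauto
    · rw [disjoint_left]
      intro x hx hx'
      simp only [mem_inter, mem_compl, mem_sdiff] at hx hx'
      tauto
  have hor : (H ∩ S).Nonempty ∨ (H ∩ Sᶜ).Nonempty := by
    obtain ⟨e, he⟩ := hne
    by_cases h : e ∈ S
    · exact Or.inl ⟨e, mem_inter.2 ⟨he, h⟩⟩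
    · exact Or.inr ⟨e, mem_inter.2 ⟨he, mem_compl.2 h⟩⟩
  rcases hor with h | h
  · have h6 := hb.2 h
    have h7 := hw.1
    omega
  · have h6 := hb.1
    have h7 := hw.2 h
    omega

end Pool.Agent.H891R2.DS.D5
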