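import Pool.Agent.H891R2.DS.Defs
import Pool.Agent.H891R2.MT.T3a
import Pool.Agent.H891R2.CA.C6

set_option autoImplicit false

/-! D6: the rank inequality (adapted from `CA.C5b`). -/

namespace Pool.Agent.H891R2.DS.D6

open Finset LaurentPolynomial Pool.Agent.H891R2.Jones Pool.Agent.H891R2.MT

variable {k : ℕ}

theorem comps_empty (G : Ribbon k) : G.comps ∅ = G.verts := by
  unfold Ribbon.comps Ribbon.verts
  have : (fun x y : Fin k × Bool => G.rot x = y ∨ (x.1 ∈ (∅ : Finset (Fin k)) ∧ y = MT.flip x)) =
      (fun x y : Fin k × Bool => G.rot x = y) := by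
    funext x y
    simp
  rw [this]

theorem comps_insert_le (G : Ribbon k) (S : Finset (Fin k)) (e : Fin k) :
    G.comps (insert e S) ≤ G.comps S := by
  rcases T3a.comps_insert G S e with ⟨_, h⟩ | ⟨_, h⟩ <;> omega

theorem comps_anti (G : Ribbon k) (S U : Finset (Fin k)) : G.comps (S ∪ U) ≤ G.comps S := by
  classical
  induction U using Finset.induction with
  | empty => simp
  | insert a U _ ih =>
    rw [Finset.union_insert]
    exact (comps_insert_le G _ a).trans ih

/-- D6: the rank inequality -/
theorem rank_ineq (G : Ribbon k) (M : Finset (Fin k))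
    (hb : ∀ H : Finset (Fin k), H.Nonempty → (∀ e ∈ H, G.comps (H.erase e) = G.comps H) →
      (H ∩ M).card + H.card + G.comps H + 1 ≤ (H \ M).card + G.verts) :
    (∀ H : Finset (Fin k), (H ∩ M).Nonempty →
      (∀ e ∈ H ∩ M, G.comps (H.erase e) = G.comps H) → G.comps H + 2 * (H ∩ M).card + 1 ≤ G.verts) ∧
    (∀ H : Finset (Fin k), H.Nonempty → G.comps H + 1 ≤ G.verts) := by
  classical
  refine ⟨?_, ?_⟩
  · intro H hne hH
    induction hn : H.card using Nat.strong_induction_on generalizing H with
    | _ n ih =>
      by_cases hb1 : ∃ b ∈ H, G.comps (H.erase b) = G.comps H + 1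
      · obtain ⟨b, hbH, hb1⟩ := hb1
        have hbR : b ∉ M := by
          intro hbR
          have := hH b (mem_inter.2 ⟨hbH, hbR⟩)
          omega
        have hint : (H.erase b) ∩ M = H ∩ M := by
          ext x
          simp only [mem_inter, mem_erase]
          constructor
          · rintro ⟨⟨_, h1⟩, h2⟩
            exact ⟨h1, h2⟩
          · rintro ⟨h1, h2⟩
            exact ⟨⟨fun hxb => hbR (hxb ▸ h2), h1⟩, h2⟩
        have hlt : (H.erase b).card < n := by
          rw [← hn]
          exact card_erase_lt_of_mem hbH
        have h1 := ih (H.erase b).card hlt (H.erase b) (by rw [hint]; exact hne) (by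
          rw [hint]
          intro e he
          have heb : b ≠ e := fun h => hbR (h ▸ (mem_inter.1 he).2)
          have h2 := CA.C6.bridge_mono G H (H.erase e) b (mem_erase.2 ⟨heb, hbH⟩) (erase_subset _ _) hb1
          rw [erase_right_comm, h2, hH e he, hb1]) rfl
        rw [hint] at h1
        omega
      · push Not at hb1
        have h0 : ∀ e ∈ H, G.comps (H.erase e) = G.comps H := by
          intro e he
          have h1 := T3a.comps_erase G H e he
          have h2 := hb1 e he
          omega
        have h3 := hb H (hne.mono inter_subset_left) h0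
        have h4 := card_inter_add_card_sdiff H M
        omega
  · intro H hne
    obtain ⟨e, he⟩ := hne
    by_contra hcon
    have h1 : G.comps H ≤ G.comps {e} := by
      have := comps_anti G {e} H
      rwa [Finset.union_eq_right.2 (singleton_subset_iff.2 he)] at this
    have h2 : G.comps {e} ≤ G.verts := by
      have := comps_anti G ∅ {e}
      rwa [Finset.empty_union, comps_empty] at this
    have h3 : G.comps {e} = G.verts := by omega
    have h4 := hb {e} (singleton_nonempty e) (by
      intro x hx
      rw [mem_singleton] at hx
      subst hx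
      rw [Finset.erase_singleton, comps_empty, h3])
    have h5 : (({e} : Finset (Fin k)) \ M).card ≤ 1 := by
      refine (card_le_card sdiff_subset).trans ?_
      rw [card_singleton]
    rw [card_singleton, h3] at h4
    omega

end Pool.Agent.H891R2.DS.D6
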