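import Pool.Agent.H891R2.DS.Defs
import Pool.Agent.H891R2.MT.T2
import Pool.Agent.H891R2.MT.T3a
import Pool.Agent.H891R2.CA.C6
import Pool.Agent.H891R2.CA.C7

set_option autoImplicit false

/-!
D9: the block `F = ∅` of the state sum.
-/

namespace Pool.Agent.H891R2.DS.D9

open Finset LaurentPolynomial Pool.Agent.H891R2.Jones Pool.Agent.H891R2.MT Pool.Agent.H891R2.DS

variable {k : ℕ}

/-- the part of the state sum which belongs to the set `F` of edges outside `M` -/
noncomputable def blk (G : Ribbon k) (M F : Finset (Fin k)) : ℤ[T;T⁻¹] :=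
  ∑ Q ∈ M.powerset, T (2 * F.card - 2 * Q.card) * (-T 2 - T (-2)) ^ (G.curves (F ∪ Q) - 1)

theorem comps_empty (Γ : Ribbon k) : Γ.comps ∅ = Γ.verts := by
  unfold Ribbon.comps Ribbon.verts
  have : (fun x y : Fin k × Bool => Γ.rot x = y ∨ (x.1 ∈ (∅ : Finset (Fin k)) ∧ y = flip x)) =
      (fun x y : Fin k × Bool => Γ.rot x = y) := by
    funext x y
    simp
  rw [this]

theorem curves_empty (Γ : Ribbon k) : Γ.curves ∅ = Γ.verts := by
  rw [T2.curves_cyc]
  have : T2.aS (∅ : Finset (Fin k)) = 1 := by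
    ext1 x; rw [T2.aS_apply]; simp
  rw [this, one_mul]; rfl

theorem curves_pos (Γ : Ribbon k) (hk : 0 < k) (S : Finset (Fin k)) : 0 < Γ.curves S := by
  unfold Ribbon.curves
  have : Nonempty (Quot (Γ.Cor S)) := ⟨Quot.mk _ ((⟨0, hk⟩, true), true)⟩
  have : Finite (Quot (Γ.Cor S)) := Quot.finite _
  exact Nat.card_pos

/-- all edges of `M` are bridges of `M` -/
theorem all_bridges (Γ : Ribbon k) (R : Finset (Fin k))
    (hrank : ∀ H : Finset (Fin k), (H ∩ R).Nonempty →
      (∀ e ∈ H ∩ R, Γ.comps (H.erase e) = Γ.comps H) → Γ.comps H + 2 * (H ∩ R).card + 1 ≤ Γ.verts) :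
    ∀ e ∈ R, Γ.comps (R.erase e) = Γ.comps R + 1 := by
  classical
  have hbu := CA.C6.bridges_union Γ
  set B := R.filter (fun e => Γ.comps (R.erase e) = Γ.comps R + 1) with hB
  have hBR : B ⊆ R := Finset.filter_subset _ _
  have hbr : ∀ e ∈ B, Γ.comps (R.erase e) = Γ.comps R + 1 := fun e he => (Finset.mem_filter.1 he).2
  by_contra hcon
  push Not at hcon
  obtain ⟨e0, he0, hne0⟩ := hcon
  have he0B : e0 ∉ B := fun h => hne0 (hbr e0 h)
  have hdisj : Disjoint (R \ B) B := Finset.sdiff_disjoint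
  have hint : (R \ B) ∩ R = R \ B := Finset.inter_eq_left.2 Finset.sdiff_subset
  have h1 := hbu R B (R \ B) hBR hbr Finset.sdiff_subset hdisj
  rw [Finset.sdiff_union_of_subset hBR] at h1
  have h2 := hrank (R \ B) (by rw [hint]; exact ⟨e0, Finset.mem_sdiff.2 ⟨he0, he0B⟩⟩) (by
    intro e he
    rw [hint] at he
    obtain ⟨heR, heB⟩ := Finset.mem_sdiff.1 he
    have h3 := hbu R B ((R \ B).erase e) hBR hbr
      ((Finset.erase_subset _ _).trans Finset.sdiff_subset)
      (Finset.disjoint_of_subset_left (Finset.erase_subset _ _) hdisj)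
    have h4 : (R \ B).erase e ∪ B = R.erase e := by
      ext x
      simp only [Finset.mem_union, Finset.mem_erase, Finset.mem_sdiff]
      constructor
      · rintro (⟨h, h', _⟩ | h)
        · exact ⟨h, h'⟩
        · exact ⟨fun hx => heB (hx ▸ h), hBR h⟩
      · rintro ⟨h, h'⟩
        by_cases hx : x ∈ B
        · exact Or.inr hx
        · exact Or.inl ⟨h, h', hx⟩
    rw [h4] at h3
    have h5 := T3a.comps_erase Γ R e heR
    have h6 : Γ.comps (R.erase e) ≠ Γ.comps R + 1 := fun h => heB (Finset.mem_filter.2 ⟨heR, h⟩)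
    omega)
  rw [hint] at h2
  have h7 := T3a.mono Γ (R \ B).card ∅ (R \ B) (by simp) (Finset.empty_subset _)
  rw [comps_empty, Finset.card_empty] at h7
  have h8 : 0 < (R \ B).card := Finset.card_pos.2 ⟨e0, Finset.mem_sdiff.2 ⟨he0, he0B⟩⟩
  omega

/-- the number of curves for the subsets of `M` -/
theorem curves_sub (G : Ribbon k) (M : Finset (Fin k))
    (hcb : ∀ (G : Ribbon k) (X : Finset (Fin k)) (e : Fin k), e ∉ X →
      G.comps X = G.comps (insert e X) + 1 → G.curves X = G.curves (insert e X) + 1)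
    (hall : ∀ e ∈ M, G.comps (M.erase e) = G.comps M + 1) :
    ∀ Q ⊆ M, G.curves Q + Q.card = G.verts := by
  intro Q
  induction Q using Finset.induction with
  | empty => intro _; rw [curves_empty, Finset.card_empty, add_zero]
  | insert e Q he ih =>
    intro hQ
    have heM : e ∈ M := hQ (Finset.mem_insert_self e Q)
    have hQM : Q ⊆ M := fun x hx => hQ (Finset.mem_insert_of_mem hx)
    have h1 := CA.C6.bridge_mono G M (insert e Q) e (Finset.mem_insert_self e Q) hQ (hall e heM)
    rw [Finset.erase_insert he] at h1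
    have h2 := hcb G Q e he h1
    have h3 := ih hQM
    rw [Finset.card_insert_of_notMem he]
    omega

/-- D9: the block `F = ∅` (uses D2b) -/
theorem blk_empty
    (hcb : ∀ (G : Ribbon k) (X : Finset (Fin k)) (e : Fin k), e ∉ X →
      G.comps X = G.comps (insert e X) + 1 → G.curves X = G.curves (insert e X) + 1)
    (G : Ribbon k) (hk : 0 < k) (M : Finset (Fin k))
    (hrank : ∀ H : Finset (Fin k), (H ∩ M).Nonempty →
      (∀ e ∈ H ∩ M, G.comps (H.erase e) = G.comps H) → G.comps H + 2 * (H ∩ M).card + 1 ≤ G.verts) :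
    M.card + 1 ≤ G.verts ∧
    blk G M ∅ = (-1) ^ M.card * T (2 * M.card) * (-T 2 - T (-2)) ^ (G.verts - 1 - M.card) := by
  have hall := all_bridges G M hrank
  have hcur := curves_sub G M hcb hall
  have hv : M.card + 1 ≤ G.verts := by
    have h1 := hcur M subset_rfl
    have h2 := curves_pos G hk M
    omega
  refine ⟨hv, ?_⟩
  have h := CA.C7.binomial M (G.verts - 1) (by omega)
  rw [← h]
  unfold blk
  apply Finset.sum_congr rfl
  intro Q hQR
  rw [Finset.mem_powerset] at hQR
  have h1 := hcur Q hQR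
  rw [Finset.empty_union, Finset.card_empty]
  have e1 : (2 * ((0 : ℕ) : ℤ) - 2 * (Q.card : ℤ)) = -2 * (Q.card : ℤ) := by push_cast; ring
  have e2 : G.curves Q - 1 = G.verts - 1 - Q.card := by omega
  rw [e1, e2]

end Pool.Agent.H891R2.DS.D9
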