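import Pool.Agent.H891R2.DS.D1
import Pool.Agent.H891R2.DS.D2
import Pool.Agent.H891R2.DS.D3
import Pool.Agent.H891R2.DS.D4
import Pool.Agent.H891R2.DS.D5
import Pool.Agent.H891R2.DS.D6
import Pool.Agent.H891R2.DS.D8
import Pool.Agent.H891R2.DS.D9
import Pool.Agent.H891R2.DS.D10
import Pool.Agent.H891R2.DS.D11
import Pool.Agent.H891R2.DS.C3

set_option autoImplicit false

namespace Pool.Agent.H891R2.DS

open Finset LaurentPolynomial Pool.Agent.H891R2.Jones Pool.Agent.H891R2.MT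

variable {k : ℕ}

theorem sg_curves (Γ : Ribbon k) (S X : Finset (Fin k)) : 
    (stateGraph Γ S).curves X = Γ.curves (symmDiff S X) := D1.sg_curves Γ S X

theorem sg_verts (Γ : Ribbon k) (S : Finset (Fin k)) : (stateGraph Γ S).verts = Γ.curves S := 
  D1.sg_verts Γ S

theorem sg_comps_univ (Γ : Ribbon k) (S : Finset (Fin k)) : 
    (stateGraph Γ S).comps Finset.univ = Γ.comps Finset.univ := D1.sg_comps_univ Γ S

theorem sg_dual (Γ : Ribbon k) (S : Finset (Fin k)) : 
    stateGraph (stateGraph Γ Finset.univ) Sᶜ = stateGraph Γ S := D1.sg_dual Γ S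

theorem planar_dual (Γ : Ribbon k) (hΓ : Γ.Planar) : (stateGraph Γ Finset.univ).Planar := 
  D1.planar_dual Γ hΓ

theorem curves_le (G : Ribbon k) (X : Finset (Fin k)) : 
    (G.curves X : ℤ) ≤ X.card - G.verts + 2 * G.comps X := D2.curves_le G X

theorem curves_bridge (G : Ribbon k) (X : Finset (Fin k)) (e : Fin k) (he : e ∉ X) 
    (h : G.comps X = G.comps (insert e X) + 1) : G.curves X = G.curves (insert e X) + 1 := 
  D2.curves_bridge G X e he h

theorem bridge_sameCycle (Γ : Ribbon k) (X : Finset (Fin k)) (e : Fin k) (he : e ∈ X)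
    (h : Γ.comps (X.erase e) = Γ.comps X + 1) : 
    (stateGraph Γ X).rot.SameCycle (e, false) (e, true) := D2.bridge_sameCycle Γ X e he h

theorem regions (Γ : Ribbon k) (hΓ : Γ.Planar) (S H : Finset (Fin k)) : 
    Γ.comps (S \ H) + (stateGraph Γ Finset.univ).comps (Sᶜ \ H) = 
      1 + (stateGraph Γ S).comps H + H.card := by
  refine D3.regions ?_ ?_ ?_ ?_ ?_ Γ hΓ S H
  · intro k Γ S; exact sg_verts Γ S
  · intro k Γ S; exact sg_comps_univ Γ S
  · intro k Γ S; exact sg_dual Γ S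
  · intro k Γ h; exact planar_dual Γ h
  · intro k Γ X e he h; exact bridge_sameCycle Γ X e he h

theorem even_region (Γ : Ribbon k) (S : Finset (Fin k)) (W : Finset (Fin k × Bool)) 
    (hW : ∀ d, Γ.rot d ∈ W ↔ d ∈ W) : EvenSet (stateGraph Γ S) (bd W ∩ S) := D4.even_region Γ S W hW

theorem rank_bridgeless (Γ : Ribbon k) (hΓ : Γ.Planar) (S M : Finset (Fin k)) 
    (hM : Dom (stateGraph Γ S) M) (H : Finset (Fin k)) (hne : H.Nonempty) 
    (hH : ∀ e ∈ H, (stateGraph Γ S).comps (H.erase e) = (stateGraph Γ S).comps H) :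
    (H ∩ M).card + H.card + (stateGraph Γ S).comps H + 1 ≤ (H \ M).card + (stateGraph Γ S).verts := 
  D5.rank_bridgeless (fun Γ h S H => regions Γ h S H) (fun Γ S W h => even_region Γ S W h) 
    (fun Γ S => sg_dual Γ S) Γ hΓ S M hM H hne hH

theorem rank_ineq (G : Ribbon k) (M : Finset (Fin k)) 
    (hb : ∀ H : Finset (Fin k), H.Nonempty → (∀ e ∈ H, G.comps (H.erase e) = G.comps H) → 
      (H ∩ M).card + H.card + G.comps H + 1 ≤ (H \ M).card + G.verts) :
    (∀ H : Finset (Fin k), (H ∩ M).Nonempty → 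
      (∀ e ∈ H ∩ M, G.comps (H.erase e) = G.comps H) → G.comps H + 2 * (H ∩ M).card + 1 ≤ G.verts) ∧ 
    (∀ H : Finset (Fin k), H.Nonempty → G.comps H + 1 ≤ G.verts) := D6.rank_ineq G M hb

/-- the part of the state sum which belongs to the set `F` of edges outside `M` -/
noncomputable def blk (G : Ribbon k) (M F : Finset (Fin k)) : ℤ[T;T⁻¹] :=
  ∑ Q ∈ M.powerset, T (2 * F.card - 2 * Q.card) * (-T 2 - T (-2)) ^ (G.curves (F ∪ Q) - 1)

theorem blk_ge (G : Ribbon k) (hk : 0 < k) (M F : Finset (Fin k)) (hFM : Disjoint F M) (hF : F.Nonempty)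
    (hrank : ∀ H : Finset (Fin k), (H ∩ M).Nonempty → 
      (∀ e ∈ H ∩ M, G.comps (H.erase e) = G.comps H) → G.comps H + 2 * (H ∩ M).card + 1 ≤ G.verts)
    (hloop : ∀ H : Finset (Fin k), H.Nonempty → G.comps H + 1 ≤ G.verts) :
    GE (blk G M F) (4 * M.card - 2 * G.verts + 6) := 
  D8.blk_ge G (fun G X => curves_le G X) (fun G X e he h => curves_bridge G X e he h) hk M F hFM hF 
    hrank hloop

theorem blk_empty (G : Ribbon k) (hk : 0 < k) (M : Finset (Fin k)) 
    (hrank : ∀ H : Finset (Fin k), (H ∩ M).Nonempty → 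
      (∀ e ∈ H ∩ M, G.comps (H.erase e) = G.comps H) → G.comps H + 2 * (H ∩ M).card + 1 ≤ G.verts) :
    M.card + 1 ≤ G.verts ∧ 
    blk G M ∅ = (-1) ^ M.card * T (2 * M.card) * (-T 2 - T (-2)) ^ (G.verts - 1 - M.card) := 
  D9.blk_empty (fun G X e he h => curves_bridge G X e he h) G hk M hrank

theorem lowest (G : Ribbon k) (hk : 0 < k) (M : Finset (Fin k)) 
    (hrank : ∀ H : Finset (Fin k), (H ∩ M).Nonempty → 
      (∀ e ∈ H ∩ M, G.comps (H.erase e) = G.comps H) → G.comps H + 2 * (H ∩ M).card + 1 ≤ G.verts)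
    (hloop : ∀ H : Finset (Fin k), H.Nonempty → G.comps H + 1 ≤ G.verts) :
    GE (PP G M) (4 * M.card - 2 * G.verts + 2) ∧ 
      |(PP G M).coeff (4 * M.card - 2 * G.verts + 2)| = 1 := 
  D10.lowest (fun G hk M F hFM hF h1 h2 => blk_ge G hk M F hFM hF h1 h2) 
    (fun G hk M h1 => blk_empty G hk M h1) G hk M hrank hloop

theorem bracket_state (Γ : Ribbon k) (hk : 0 < k) (R S : Finset (Fin k)) :
    (Γ.link (sg R)).std.bracket = T (2 * (Asm R S).card - k) * PP (stateGraph Γ S) (Asm R S) := 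
  D11.bracket_state (fun Γ hk R => C3.bracket_eq Γ hk R) Γ hk R S

theorem bracket_state' (Γ : Ribbon k) (hk : 0 < k) (R S : Finset (Fin k)) (j : ℤ) :
    (Γ.link (sg R)).std.bracket.coeff j = 
      (T (2 * ((Asm R S)ᶜ).card - k) * PP (stateGraph Γ S) (Asm R S)ᶜ : ℤ[T;T⁻¹]).coeff (-j) := 
  D11.bracket_state' (fun Γ hk R => C3.bracket_eq Γ hk R) Γ hk R S j

end Pool.Agent.H891R2.DS
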