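import Pool.Agent.H891R2.DS.Defs
import Pool.Agent.H891R2.CA.C1

/-! D1 (helper51): elementary facts on state graphs. -/

set_option autoImplicit false

namespace Pool.Agent.H891R2.DS.D1

open Finset LaurentPolynomial Pool.Agent.H891R2.Jones Pool.Agent.H891R2.MT

variable {k : ℕ}

theorem flipOn_apply (S : Finset (Fin k)) (d : Fin k × Bool) :
    flipOn S d = if d.1 ∈ S then MT.flip d else d := rfl

theorem sg_rot_apply (Γ : Ribbon k) (S : Finset (Fin k)) (d : Fin k × Bool) :
    (stateGraph Γ S).rot d = if (Γ.rot d).1 ∈ S then MT.flip (Γ.rot d) else Γ.rot d := rfl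

theorem sg_rot (Γ : Ribbon k) (S : Finset (Fin k)) :
    (stateGraph Γ S).rot = T2.aS S * Γ.rot := by
  apply Equiv.ext
  intro d
  rw [Equiv.Perm.mul_apply, T2.aS_apply, sg_rot_apply]

theorem aS_mul (S X : Finset (Fin k)) : T2.aS X * T2.aS S = T2.aS (symmDiff S X) := by
  apply Equiv.ext
  intro d
  have hfl : (MT.flip d).1 = d.1 := rfl
  rw [Equiv.Perm.mul_apply, T2.aS_apply, T2.aS_apply, T2.aS_apply]
  by_cases h1 : d.1 ∈ S <;> by_cases h2 : d.1 ∈ X <;>
    simp [h1, h2, hfl, Finset.mem_symmDiff, T2.flip_flip]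

theorem ribbon_ext {Γ Γ' : Ribbon k} (h : Γ.rot = Γ'.rot) : Γ = Γ' := by
  cases Γ; cases Γ'; simp only at h; rw [h]

/-- D1: elementary facts on state graphs -/
theorem sg_curves (Γ : Ribbon k) (S X : Finset (Fin k)) : 
    (stateGraph Γ S).curves X = Γ.curves (symmDiff S X) := by
  rw [T2.curves_cyc, T2.curves_cyc, sg_rot, ← mul_assoc, aS_mul]

theorem sg_verts (Γ : Ribbon k) (S : Finset (Fin k)) : (stateGraph Γ S).verts = Γ.curves S := by
  rw [T2.curves_cyc, ← sg_rot]
  rfl

theorem sg_comps_univ (Γ : Ribbon k) (S : Finset (Fin k)) : 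
    (stateGraph Γ S).comps Finset.univ = Γ.comps Finset.univ := by
  unfold Ribbon.comps
  apply MT.T2.card_quot_congr
  · intro x y h
    have hf : ∀ a : Fin k × Bool, Quot.mk (fun x y : Fin k × Bool => Γ.rot x = y ∨
        (x.1 ∈ univ ∧ y = MT.flip x)) a = Quot.mk _ (MT.flip a) :=
      fun a => Quot.sound (Or.inr ⟨mem_univ _, rfl⟩)
    have hr : ∀ a : Fin k × Bool, Quot.mk (fun x y : Fin k × Bool => Γ.rot x = y ∨
        (x.1 ∈ univ ∧ y = MT.flip x)) a = Quot.mk _ (Γ.rot a) :=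
      fun a => Quot.sound (Or.inl rfl)
    rcases h with h | ⟨_, h⟩
    · rw [sg_rot_apply] at h
      by_cases hS : (Γ.rot x).1 ∈ S
      · rw [if_pos hS] at h
        rw [← h, ← hf]
        exact hr x
      · rw [if_neg hS] at h
        rw [← h]
        exact hr x
    · rw [h]
      exact hf x
  · intro x y h
    have hf : ∀ a : Fin k × Bool, Quot.mk (fun x y : Fin k × Bool => (stateGraph Γ S).rot x = y ∨
        (x.1 ∈ univ ∧ y = MT.flip x)) a = Quot.mk _ (MT.flip a) :=
      fun a => Quot.sound (Or.inr ⟨mem_univ _, rfl⟩)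
    have hr : ∀ a : Fin k × Bool, Quot.mk (fun x y : Fin k × Bool => (stateGraph Γ S).rot x = y ∨
        (x.1 ∈ univ ∧ y = MT.flip x)) a = Quot.mk _ ((stateGraph Γ S).rot a) :=
      fun a => Quot.sound (Or.inl rfl)
    rcases h with h | ⟨_, h⟩
    · rw [← h]
      have h2 := hr x
      rw [sg_rot_apply] at h2
      by_cases hS : (Γ.rot x).1 ∈ S
      · rw [if_pos hS, ← hf] at h2
        exact h2
      · rw [if_neg hS] at h2
        exact h2
    · rw [h]
      exact hf x

theorem sg_dual (Γ : Ribbon k) (S : Finset (Fin k)) : 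
    stateGraph (stateGraph Γ Finset.univ) Sᶜ = stateGraph Γ S := by
  apply ribbon_ext
  rw [sg_rot, sg_rot, sg_rot, ← mul_assoc, aS_mul]
  congr 2
  ext e
  simp [Finset.mem_symmDiff]

theorem sg_univ (Γ : Ribbon k) : stateGraph Γ Finset.univ = CA.dual Γ := by
  apply ribbon_ext
  apply Equiv.ext
  intro d
  rw [sg_rot_apply, if_pos (mem_univ _), CA.C1.dual_rot]

theorem planar_dual (Γ : Ribbon k) (hΓ : Γ.Planar) : (stateGraph Γ Finset.univ).Planar := by
  rw [sg_univ]
  exact CA.C1.planar_dual Γ hΓ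

end Pool.Agent.H891R2.DS.D1
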