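import Pool.Agent.H891R2.MT.Defs

set_option autoImplicit false

/-!
Dominated states of link diagrams.
-/

namespace Pool.Agent.H891R2.DS

open Finset LaurentPolynomial Pool.Agent.H891R2.Jones Pool.Agent.H891R2.MT

variable {k : ℕ}

/-- the permutation which exchanges the two darts of every edge in `S` -/
def flipOn (S : Finset (Fin k)) : Equiv.Perm (Fin k × Bool) where
  toFun d := if d.1 ∈ S then MT.flip d else d
  invFun d := if d.1 ∈ S then MT.flip d else d
  left_inv d := by
    by_cases h : d.1 ∈ S
    · have : (MT.flip d).1 ∈ S := h
      simp [h, this, MT.flip]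
    · simp [h]
  right_inv d := by
    by_cases h : d.1 ∈ S
    · have : (MT.flip d).1 ∈ S := h
      simp [h, this, MT.flip]
    · simp [h]

/-- The state graph of the state `S` (the bands `e ∈ S` are kept, the other bands are cut) of a
diagram `Γ.link n`: its vertices (cycles of `rot`) are the circles of the state `S`, and every
crossing `e` is an edge, which joins the circles at the two sides of the crossing. (For `S = ∅` this is
`Γ`, for `S = univ` it is the dual graph of `Γ`; in general it is the partial dual of `Γ`.) -/
def stateGraph (Γ : Ribbon k) (S : Finset (Fin k)) : Ribbon k := ⟨Γ.rot.trans (flipOn S)⟩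

/-- `X` is an even subgraph (an edge-disjoint union of cycles) of the graph `G`: every vertex is
incident with an even number of darts of edges in `X` -/
def EvenSet (G : Ribbon k) (X : Finset (Fin k)) : Prop :=
  ∀ d, Even {d' : Fin k × Bool | G.rot.SameCycle d d' ∧ d'.1 ∈ X}.ncard

/-- every cycle (nonempty even subgraph) of `G` has at least two more edges outside `M` than in `M` -/
def Dom (G : Ribbon k) (M : Finset (Fin k)) : Prop :=
  ∀ X : Finset (Fin k), X.Nonempty → EvenSet G X → (X ∩ M).card + 2 ≤ (X \ M).card

/-- one crossing at every edge, of the kind `-1` for the edges in `R` and of the kind `1` for the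
other edges -/
def sg (R : Finset (Fin k)) (e : Fin k) : ℤ := if e ∈ R then -1 else 1

/-- the set of the crossings of `Γ.link (sg R)` at which the state `S` has the smoothing of type `A` -/
def Asm (R S : Finset (Fin k)) : Finset (Fin k) := Finset.univ.filter (fun e => e ∈ S ↔ e ∉ R)

/-! ### auxiliary notions -/

/-- the state sum of a ribbon graph with the set `M` of exceptional edges -/
noncomputable def PP (G : Ribbon k) (M : Finset (Fin k)) : ℤ[T;T⁻¹] :=
  ∑ X : Finset (Fin k), T (2 * (X \ M).card - 2 * (X ∩ M).card) * (-T 2 - T (-2)) ^ (G.curves X - 1)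

/-- `f` has no coefficients below `m` -/
def GE (f : ℤ[T;T⁻¹]) (m : ℤ) : Prop := ∀ j, f.coeff j ≠ 0 → m ≤ j

/-- the edges which have exactly one of their two darts in `W` -/
def bd (W : Finset (Fin k × Bool)) : Finset (Fin k) := 
  Finset.univ.filter (fun e => ¬ ((e, false) ∈ W ↔ (e, true) ∈ W))

end Pool.Agent.H891R2.DS
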