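import Pool.Agent.H891R2.DS.All
import Pool.Agent.H891R2.SI.S6

set_option autoImplicit false

/-! Assembly. -/

namespace Pool.Agent.H891R2.DS

open Finset LaurentPolynomial Pool.Agent.H891R2.Jones Pool.Agent.H891R2.MT

variable {k : ℕ}

namespace Fin'

theorem coeff_T_mul (m j : ℤ) (f : ℤ[T;T⁻¹]) : (T m * f).coeff j = f.coeff (j - m) := by
  have h := SI.S6.coeff_T_mul m f (j - m)
  rwa [add_sub_cancel] at h

/-- one side -/
theorem side (Γ : Ribbon k) (hΓ : Γ.Planar) (hk : 0 < k) (S M : Finset (Fin k)) 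
    (h : Dom (stateGraph Γ S) M) : 
    GE (T (2 * M.card - k) * PP (stateGraph Γ S) M) (6 * M.card - k - 2 * (stateGraph Γ S).verts + 2) ∧ 
    |(T (2 * M.card - k) * PP (stateGraph Γ S) M : ℤ[T;T⁻¹]).coeff 
      (6 * M.card - k - 2 * (stateGraph Γ S).verts + 2)| = 1 := by
  obtain ⟨r1, r2⟩ := rank_ineq (stateGraph Γ S) M (rank_bridgeless Γ hΓ S M h)
  obtain ⟨a1, a2⟩ := lowest (stateGraph Γ S) hk M r1 r2
  constructor
  · intro j hj
    rw [coeff_T_mul] at hj
    have := a1 _ hj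
    linarith
  · rw [coeff_T_mul]
    have e : (6 * (M.card : ℤ) - k - 2 * (stateGraph Γ S).verts + 2) - (2 * M.card - k) = 
        4 * M.card - 2 * (stateGraph Γ S).verts + 2 := by ring
    rw [e]
    exact a2

theorem main (Γ : Ribbon k) (hΓ : Γ.Planar) (hk : 0 < k) (R S₁ S₂ : Finset (Fin k)) 
    (h1 : Dom (stateGraph Γ S₁) (Asm R S₁)) (h2 : Dom (stateGraph Γ S₂) (Asm R S₂)ᶜ) 
    (D : Diagram (Ribbon.Pt (sg R))) (hD : Orients D (Γ.link (sg R))) :
    ∃ m : ℤ, 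
      (∀ j, D.fPoly.coeff j ≠ 0 → m ≤ j ∧ 
        j ≤ m + (2 * k + 2 * ((stateGraph Γ S₁).verts + (stateGraph Γ S₂).verts) - 4 - 
          6 * ((Asm R S₁).card + ((Asm R S₂)ᶜ).card))) ∧ 
      |D.fPoly.coeff m| = 1 ∧ 
      |D.fPoly.coeff (m + (2 * k + 2 * ((stateGraph Γ S₁).verts + (stateGraph Γ S₂).verts) - 4 - 
          6 * ((Asm R S₁).card + ((Asm R S₂)ᶜ).card)))| = 1 := by
  obtain ⟨a1, a2⟩ := side Γ hΓ hk S₁ _ h1
  obtain ⟨b1, b2⟩ := side Γ hΓ hk S₂ _ h2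
  have hP : Nonempty (Ribbon.Pt (sg R)) := ⟨⟨⟨0, hk⟩, 0, true⟩⟩
  have hbr : D.bracket = (Γ.link (sg R)).std.bracket := MT.T6.bracket_orients D _ hD
  have hc : ∀ j, D.fPoly.coeff j = (if Even D.writhe then 1 else -1) * 
      ((Γ.link (sg R)).std.bracket).coeff (j - (-3 * D.writhe)) := by
    intro j
    unfold Diagram.fPoly
    rw [hbr]
    by_cases hw : Even D.writhe
    · rw [if_pos hw, if_pos hw, one_mul, one_mul, coeff_T_mul]
    · rw [if_neg hw, if_neg hw]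
      have e0 : (-1 : ℤ[T;T⁻¹]) * T (-3 * D.writhe) * (Γ.link (sg R)).std.bracket = 
          -(T (-3 * D.writhe) * (Γ.link (sg R)).std.bracket) := by ring
      rw [e0]
      have : (-(T (-3 * D.writhe) * (Γ.link (sg R)).std.bracket)).coeff j = 
          -((T (-3 * D.writhe) * (Γ.link (sg R)).std.bracket).coeff j) := rfl
      rw [this, coeff_T_mul, neg_one_mul]
  set s : ℤ := if Even D.writhe then 1 else -1 with hs
  have hs1 : |s| = 1 := by rw [hs]; split_ifs <;> simp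
  refine ⟨(6 * (Asm R S₁).card - k - 2 * (stateGraph Γ S₁).verts + 2) + (-3 * D.writhe), ?_, ?_, ?_⟩
  · intro j hj
    rw [hc] at hj
    have h3 := right_ne_zero_of_mul hj
    have h4 := h3
    rw [bracket_state Γ hk R S₁] at h3
    rw [bracket_state' Γ hk R S₂] at h4
    have h5 := a1 _ h3
    have h6 := b1 _ h4
    constructor <;> linarith
  · rw [hc, abs_mul, hs1, one_mul, bracket_state Γ hk R S₁, add_sub_cancel_right]
    exact a2
  · rw [hc, abs_mul, hs1, one_mul, bracket_state' Γ hk R S₂]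
    have e : -((6 * ((Asm R S₁).card : ℤ) - k - 2 * (stateGraph Γ S₁).verts + 2) + (-3 * D.writhe) + 
        (2 * k + 2 * ((stateGraph Γ S₁).verts + (stateGraph Γ S₂).verts) - 4 - 
          6 * ((Asm R S₁).card + ((Asm R S₂)ᶜ).card)) - (-3 * D.writhe)) = 
        6 * ((Asm R S₂)ᶜ).card - k - 2 * (stateGraph Γ S₂).verts + 2 := by ring
    rw [e]
    exact b2

end Fin'

end Pool.Agent.H891R2.DS
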