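import Pool.Agent.H891R2.DS.All
import Pool.Agent.H891R2.CA.C6
import Pool.Agent.H891R2.MT.T3a

set_option autoImplicit false

/-! Nugatory crossings. -/

namespace Pool.Agent.H891R2.DS

open Finset LaurentPolynomial Pool.Agent.H891R2.Jones Pool.Agent.H891R2.MT

variable {k : ℕ}

namespace Nug

theorem sg_empty (Γ : Ribbon k) : stateGraph Γ ∅ = Γ := by
  have : flipOn (∅ : Finset (Fin k)) = 1 := by
    ext1 d
    simp [flipOn]
  unfold stateGraph
  rw [this]
  rfl

/-- the number of pieces of the state graph without `e` -/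
theorem erase_of_not_mem (Γ : Ribbon k) (hΓ : Γ.Planar) (S : Finset (Fin k)) (e : Fin k) (he : e ∉ S) :
    (stateGraph Γ S).comps (univ.erase e) = Γ.comps (univ.erase e) := by
  have h1 := regions Γ hΓ S (univ.erase e)
  have h2 := regions Γ hΓ ∅ (univ.erase e)
  rw [sg_empty] at h2
  have a1 : S \ (univ.erase e) = ∅ := by
    ext x; simp only [mem_sdiff, mem_erase, mem_univ, and_true, not_not, notMem_empty, iff_false]
    rintro ⟨h, rfl⟩; exact he h
  have a2 : Sᶜ \ (univ.erase e) = {e} := by
    ext x; simp only [mem_sdiff, mem_erase, mem_univ, and_true, not_not, mem_compl, mem_singleton]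
    constructor
    · rintro ⟨_, h⟩; exact h
    · rintro rfl; exact ⟨he, rfl⟩
  have a3 : (∅ : Finset (Fin k)) \ (univ.erase e) = ∅ := by simp
  have a4 : (∅ : Finset (Fin k))ᶜ \ (univ.erase e) = {e} := by
    ext x; simp
  rw [a1, a2] at h1
  rw [a3, a4] at h2
  omega

theorem erase_of_mem (Γ : Ribbon k) (hΓ : Γ.Planar) (S : Finset (Fin k)) (e : Fin k) (he : e ∈ S) :
    (stateGraph Γ S).comps (univ.erase e) = (stateGraph Γ univ).comps (univ.erase e) := by
  rw [← sg_dual Γ S]
  exact erase_of_not_mem _ (planar_dual Γ hΓ) Sᶜ e (by simpa using he)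

theorem erase_le (G : Ribbon k) (hG : G.comps univ = 1) (e : Fin k) : 
    G.comps (univ.erase e) = 1 ∨ G.comps (univ.erase e) = 2 := by
  have := MT.comps_erase G univ e (mem_univ e)
  omega

theorem bridge_not_mem (Γ : Ribbon k) (hΓ : Γ.Planar) (S : Finset (Fin k)) 
    (hno : ∀ H : Finset (Fin k), H.Nonempty → (stateGraph Γ S).comps H + 1 ≤ (stateGraph Γ S).verts) 
    (hempty : (stateGraph Γ S).comps ∅ = (stateGraph Γ S).verts) (e : Fin k)
    (h : Γ.comps (univ.erase e) = 2) : e ∉ S := by
  intro he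
  have hu := hΓ.1
  have h1 : Γ.comps (S.erase e) = Γ.comps S + 1 := 
    CA.C6.bridge_mono Γ univ S e he (subset_univ _) (by rw [h, hu])
  have h2 := regions Γ hΓ S {e}
  have h3 := regions Γ hΓ S ∅
  have a1 : S \ {e} = S.erase e := by rw [sdiff_singleton_eq_erase]
  have a2 : Sᶜ \ {e} = Sᶜ := by
    ext x; simp only [mem_sdiff, mem_compl, mem_singleton]
    constructor
    · exact fun h => h.1
    · intro h; exact ⟨h, fun h' => h (h' ▸ he)⟩
  rw [a1, a2, card_singleton] at h2
  rw [sdiff_empty, sdiff_empty, card_empty, hempty] at h3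
  have h4 := hno {e} (singleton_nonempty e)
  omega

theorem comps_empty (G : Ribbon k) : G.comps ∅ = G.verts := by
  have h := MT.T2.defect_empty G
  unfold Ribbon.comps Ribbon.verts
  refine MT.T2.card_quot_congr ?_ ?_
  · rintro x y (h | h)
    · exact Quot.sound h
    · exact absurd h.1 (notMem_empty _)
  · intro x y h
    exact Quot.sound (Or.inl h)

/-- the crossing `e` is not nugatory -/
def Core (Γ : Ribbon k) (e : Fin k) : Prop := 
  Γ.comps (univ.erase e) = 1 ∧ (stateGraph Γ univ).comps (univ.erase e) = 1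

/-- one state -/
theorem one_state (Γ : Ribbon k) (hΓ : Γ.Planar) (S M : Finset (Fin k)) 
    (h : Dom (stateGraph Γ S) M) (C : Finset (Fin k)) (hC : ∀ e, e ∈ C ↔ Core Γ e) (hne : C.Nonempty) :
    (∀ e, e ∉ C → (e ∈ S ↔ Γ.comps (univ.erase e) = 1)) ∧
    2 * (C ∩ M).card + Cᶜ.card + 2 ≤ (stateGraph Γ S).verts ∧ (stateGraph Γ S).verts ≤ k + 1 := by
  have hrb := rank_bridgeless Γ hΓ S M h
  obtain ⟨-, hno⟩ := rank_ineq (stateGraph Γ S) M hrb
  have hΓ' := planar_dual Γ hΓ
  have hE := comps_empty (stateGraph Γ S)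
  have hd1 : stateGraph (stateGraph Γ univ) Sᶜ = stateGraph Γ S := sg_dual Γ S
  have hu : (stateGraph Γ S).comps univ = 1 := by rw [sg_comps_univ]; exact hΓ.1
  have hb1 : ∀ e, Γ.comps (univ.erase e) = 2 → e ∉ S := fun e he => 
    bridge_not_mem Γ hΓ S hno hE e he
  have hb2 : ∀ e, (stateGraph Γ univ).comps (univ.erase e) = 2 → e ∈ S := by
    intro e he
    have := bridge_not_mem (stateGraph Γ univ) hΓ' Sᶜ (by rw [hd1]; exact hno) (by rw [hd1]; exact hE) e he
    simpa using this
  have hmem : ∀ e, e ∉ C → (e ∈ S ↔ Γ.comps (univ.erase e) = 1) := by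
    intro e he
    rw [hC] at he
    constructor
    · intro heS
      rcases erase_le Γ hΓ.1 e with h1 | h1
      · exact h1
      · exact absurd heS (hb1 e h1)
    · intro h1
      rcases erase_le _ hΓ'.1 e with h2 | h2
      · exact absurd ⟨h1, h2⟩ he
      · exact hb2 e h2
  refine ⟨hmem, ?_, ?_⟩
  · -- edges outside of `C` are bridges of the state graph
    have hbr : ∀ e ∈ Cᶜ, (stateGraph Γ S).comps (univ.erase e) = (stateGraph Γ S).comps univ + 1 := by
      intro e he
      rw [mem_compl] at he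
      rw [hu]
      by_cases heS : e ∈ S
      · rw [erase_of_mem Γ hΓ S e heS]
        rcases erase_le _ hΓ'.1 e with h2 | h2
        · exact absurd ((hC e).2 ⟨(hmem e he).1 heS, h2⟩) he
        · exact h2
      · rw [erase_of_not_mem Γ hΓ S e heS]
        rcases erase_le Γ hΓ.1 e with h1 | h1
        · exact absurd ((hmem e he).2 h1) heS
        · exact h1
    have hcore : ∀ e ∈ C, (stateGraph Γ S).comps (univ.erase e) = 1 := by
      intro e he
      rw [hC] at he
      by_cases heS : e ∈ S
      · rw [erase_of_mem Γ hΓ S e heS]; exact he.2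
      · rw [erase_of_not_mem Γ hΓ S e heS]; exact he.1
    have u1 := CA.C6.bridges_union (stateGraph Γ S) univ Cᶜ C (subset_univ _) hbr (subset_univ _) 
      disjoint_compl_right
    rw [union_compl, hu] at u1
    have u2 : ∀ e ∈ C, (stateGraph Γ S).comps (C.erase e) = (stateGraph Γ S).comps C := by
      intro e he
      have := CA.C6.bridges_union (stateGraph Γ S) univ Cᶜ (C.erase e) (subset_univ _) hbr (subset_univ _) 
        (disjoint_compl_right.mono_left (erase_subset _ _))
      have e1 : C.erase e ∪ Cᶜ = univ.erase e := by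
        ext x
        simp only [mem_union, mem_erase, mem_compl, mem_univ, and_true]
        constructor
        · rintro (h | h)
          · exact h.1
          · rintro rfl; exact h he
        · intro h
          by_cases hx : x ∈ C
          · exact Or.inl ⟨h, hx⟩
          · exact Or.inr hx
      rw [this, e1, hcore e he, u1]
    have h5 := hrb C hne u2
    have h6 : (C ∩ M).card + (C \ M).card = C.card := card_inter_add_card_sdiff C M
    omega
  · have := MT.T3a.mono (stateGraph Γ S) k ∅ univ (by simp) (empty_subset _)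
    rw [hE, hu] at this
    simp at this
    omega

/-- the span is positive if there is a crossing which is not nugatory -/
theorem span_pos (Γ : Ribbon k) (hΓ : Γ.Planar) (R S₁ S₂ : Finset (Fin k)) 
    (h1 : Dom (stateGraph Γ S₁) (Asm R S₁)) (h2 : Dom (stateGraph Γ S₂) (Asm R S₂)ᶜ) 
    (e : Fin k) (he : Core Γ e) : 
    3 * ((Asm R S₁).card + ((Asm R S₂)ᶜ).card) + 5 ≤ 
      k + (stateGraph Γ S₁).verts + (stateGraph Γ S₂).verts := by
  classical
  set C : Finset (Fin k) := univ.filter (fun e => Core Γ e) with hCdef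
  have hC : ∀ e, e ∈ C ↔ Core Γ e := by intro e; simp [hCdef]
  have hne : C.Nonempty := ⟨e, (hC e).2 he⟩
  obtain ⟨a1, a2, a3⟩ := one_state Γ hΓ S₁ _ h1 C hC hne
  obtain ⟨b1, b2, b3⟩ := one_state Γ hΓ S₂ _ h2 C hC hne
  have c1 : (Asm R S₁).card = (C ∩ Asm R S₁).card + (Cᶜ ∩ Asm R S₁).card := by
    rw [← card_union_of_disjoint]
    · congr 1; ext x; simp only [mem_union, mem_inter, mem_compl]; tauto
    · rw [disjoint_left]; intro x h1 h2
      exact (mem_compl.1 (mem_inter.1 h2).1) (mem_inter.1 h1).1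
  have c2 : ((Asm R S₂)ᶜ).card = (C ∩ (Asm R S₂)ᶜ).card + (Cᶜ ∩ (Asm R S₂)ᶜ).card := by
    rw [← card_union_of_disjoint]
    · congr 1; ext x; simp only [mem_union, mem_inter, mem_compl]; tauto
    · rw [disjoint_left]; intro x h1 h2
      exact (mem_compl.1 (mem_inter.1 h2).1) (mem_inter.1 h1).1
  have c3 : (Cᶜ ∩ Asm R S₁).card + (Cᶜ ∩ (Asm R S₂)ᶜ).card = Cᶜ.card := by
    rw [← card_union_of_disjoint]
    · congr 1; ext x
      simp only [mem_union, mem_inter, mem_compl, Asm, mem_filter, mem_univ, true_and]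
      by_cases hx : x ∈ C
      · simp [hx]
      · have := a1 x hx; have := b1 x hx; tauto
    · rw [disjoint_left]; intro x h1 h2
      simp only [mem_inter, mem_compl, Asm, mem_filter, mem_univ, true_and] at h1 h2
      have := a1 x h1.1; have := b1 x h1.1; tauto
  omega

end Nug

end Pool.Agent.H891R2.DS
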