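import Pool.Agent.H891R2.DS.Fin
import Pool.Agent.H891R2.DS.Nug

set_option autoImplicit false

/-! The final statement on dominated states. -/

namespace Pool.Agent.H891R2.DS

open Finset LaurentPolynomial Pool.Agent.H891R2.Jones Pool.Agent.H891R2.MT

variable {k : ℕ}

/-- the crossing `e` is nugatory: the edge `e` is a bridge of the Tait graph `Γ` or of its dual graph
`stateGraph Γ univ` (then it is a loop of `Γ`) -/
def Nugatory (Γ : Ribbon k) (e : Fin k) : Prop := 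
  1 < Γ.comps (Finset.univ.erase e) ∨ 1 < (stateGraph Γ Finset.univ).comps (Finset.univ.erase e)

/-- `2 k + 2 (v₁ + v₂) - 4 - 6 (m₁ + m₂)`, where `vᵢ` is the number of circles of the state `Sᵢ`, 
`m₁` the number of `A`-smoothings of `S₁`, and `m₂` the number of `B`-smoothings of `S₂` -/
noncomputable def spanA (Γ : Ribbon k) (R S₁ S₂ : Finset (Fin k)) : ℤ :=
  2 * k + 2 * ((stateGraph Γ S₁).verts + (stateGraph Γ S₂).verts) - 4 - 
    6 * ((Asm R S₁).card + ((Asm R S₂)ᶜ).card)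

theorem final (Γ : Ribbon k) (hΓ : Γ.Planar) (hk : 0 < k) (R S₁ S₂ : Finset (Fin k)) 
    (h₁ : Dom (stateGraph Γ S₁) (Asm R S₁)) (h₂ : Dom (stateGraph Γ S₂) (Asm R S₂)ᶜ) 
    (D : Diagram (Ribbon.Pt (sg R))) (hD : Orients D (Γ.link (sg R))) :
    (∃ m : ℤ, (∀ j, D.fPoly.coeff j ≠ 0 → m ≤ j ∧ j ≤ m + spanA Γ R S₁ S₂) ∧ 
      |D.fPoly.coeff m| = 1 ∧ |D.fPoly.coeff (m + spanA Γ R S₁ S₂)| = 1) ∧ 
    ((∃ e, ¬ Nugatory Γ e) → 0 < spanA Γ R S₁ S₂ ∧ D.fPoly ≠ 1) := by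
  obtain ⟨m, a1, a2, a3⟩ := Fin'.main Γ hΓ hk R S₁ S₂ h₁ h₂ D hD
  refine ⟨⟨m, a1, a2, a3⟩, ?_⟩
  rintro ⟨e, he⟩
  unfold Nugatory at he
  push Not at he
  have hc1 := Nug.erase_le Γ hΓ.1 e
  have hc2 := Nug.erase_le _ (planar_dual Γ hΓ).1 e
  have hcore : Nug.Core Γ e := ⟨by omega, by omega⟩
  have hs := Nug.span_pos Γ hΓ R S₁ S₂ h₁ h₂ e hcore
  have hpos : 0 < spanA Γ R S₁ S₂ := by
    unfold spanA
    have : 3 * (((Asm R S₁).card : ℤ) + ((Asm R S₂)ᶜ).card) + 5 ≤ 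
      k + (stateGraph Γ S₁).verts + (stateGraph Γ S₂).verts := by exact_mod_cast hs
    linarith
  refine ⟨hpos, ?_⟩
  intro hf
  have key : ∀ j, D.fPoly.coeff j ≠ 0 → j = 0 := by
    intro j hj
    by_contra h0
    apply hj
    rw [hf, ← T_zero]
    rw [show (T 0 : ℤ[T;T⁻¹]).coeff j = if (0 : ℤ) = j then 1 else 0 from Finsupp.single_apply]
    rw [if_neg (fun h => h0 h.symm)]
  have e1 : m = 0 := key m (fun h => by
    have a2' : |D.fPoly.coeff m| = 1 := a2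
    rw [h] at a2'; simp at a2')
  have e2 : m + spanA Γ R S₁ S₂ = 0 := key _ (fun h => by
    have a3' : |D.fPoly.coeff (m + spanA Γ R S₁ S₂)| = 1 := a3
    rw [h] at a3'; simp at a3')
  omega

end Pool.Agent.H891R2.DS
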