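import Pool.Agent.H891R2.DS.Defs
import Pool.Agent.H891R2.MT.All
import Pool.Agent.H891R2.MT.T4b
import Pool.Agent.H891R2.MT.T6

set_option autoImplicit false

/-! Statements of the tasks (for distribution only; do not import). -/

namespace Pool.Agent.H891R2.DS

open Finset LaurentPolynomial Pool.Agent.H891R2.Jones Pool.Agent.H891R2.MT

variable {k : ℕ}

/-- D1: elementary facts on state graphs -/
theorem sg_curves (Γ : Ribbon k) (S X : Finset (Fin k)) : 
    (stateGraph Γ S).curves X = Γ.curves (symmDiff S X) := by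
  sorry

theorem sg_verts (Γ : Ribbon k) (S : Finset (Fin k)) : (stateGraph Γ S).verts = Γ.curves S := by
  sorry

theorem sg_comps_univ (Γ : Ribbon k) (S : Finset (Fin k)) : 
    (stateGraph Γ S).comps Finset.univ = Γ.comps Finset.univ := by
  sorry

theorem sg_dual (Γ : Ribbon k) (S : Finset (Fin k)) : 
    stateGraph (stateGraph Γ Finset.univ) Sᶜ = stateGraph Γ S := by
  sorry

theorem planar_dual (Γ : Ribbon k) (hΓ : Γ.Planar) : (stateGraph Γ Finset.univ).Planar := by
  sorry

/-- D2a: the number of curves of an arbitrary ribbon graph -/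
theorem curves_le (G : Ribbon k) (X : Finset (Fin k)) : 
    (G.curves X : ℤ) ≤ X.card - G.verts + 2 * G.comps X := by
  sorry

/-- D2b: a bridge joins two curves -/
theorem curves_bridge (G : Ribbon k) (X : Finset (Fin k)) (e : Fin k) (he : e ∉ X) 
    (h : G.comps X = G.comps (insert e X) + 1) : G.curves X = G.curves (insert e X) + 1 := by
  sorry

/-- D2c: the two sides of a bridge lie on the same curve -/
theorem bridge_sameCycle (Γ : Ribbon k) (X : Finset (Fin k)) (e : Fin k) (he : e ∈ X)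
    (h : Γ.comps (X.erase e) = Γ.comps X + 1) : 
    (stateGraph Γ X).rot.SameCycle (e, false) (e, true) := by
  sorry

/-- D3: the number of regions of a state with some arcs (uses D1, D2c) -/
theorem regions (Γ : Ribbon k) (hΓ : Γ.Planar) (S H : Finset (Fin k)) : 
    Γ.comps (S \ H) + (stateGraph Γ Finset.univ).comps (Sᶜ \ H) = 
      1 + (stateGraph Γ S).comps H + H.card := by
  sorry

/-- D4: the boundary of a region is an even subgraph of the state graph -/
theorem even_region (Γ : Ribbon k) (S : Finset (Fin k)) (W : Finset (Fin k × Bool)) 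
    (hW : ∀ d, Γ.rot d ∈ W ↔ d ∈ W) : EvenSet (stateGraph Γ S) (bd W ∩ S) := by
  sorry

/-- D5: subgraphs without bridges of a state graph (uses D1, D3, D4) -/
theorem rank_bridgeless (Γ : Ribbon k) (hΓ : Γ.Planar) (S M : Finset (Fin k)) 
    (hM : Dom (stateGraph Γ S) M) (H : Finset (Fin k)) (hne : H.Nonempty) 
    (hH : ∀ e ∈ H, (stateGraph Γ S).comps (H.erase e) = (stateGraph Γ S).comps H) :
    (H ∩ M).card + H.card + (stateGraph Γ S).comps H + 1 ≤ (H \ M).card + (stateGraph Γ S).verts := by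
  sorry

/-- D6: the rank inequality -/
theorem rank_ineq (G : Ribbon k) (M : Finset (Fin k)) 
    (hb : ∀ H : Finset (Fin k), H.Nonempty → (∀ e ∈ H, G.comps (H.erase e) = G.comps H) → 
      (H ∩ M).card + H.card + G.comps H + 1 ≤ (H \ M).card + G.verts) :
    (∀ H : Finset (Fin k), (H ∩ M).Nonempty → 
      (∀ e ∈ H ∩ M, G.comps (H.erase e) = G.comps H) → G.comps H + 2 * (H ∩ M).card + 1 ≤ G.verts) ∧ 
    (∀ H : Finset (Fin k), H.Nonempty → G.comps H + 1 ≤ G.verts) := by
  sorry

/-- the part of the state sum which belongs to the set `F` of edges outside `M` -/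
noncomputable def blk (G : Ribbon k) (M F : Finset (Fin k)) : ℤ[T;T⁻¹] :=
  ∑ Q ∈ M.powerset, T (2 * F.card - 2 * Q.card) * (-T 2 - T (-2)) ^ (G.curves (F ∪ Q) - 1)

/-- D8: the blocks for `F ≠ ∅` (uses D2a, D2b) -/
theorem blk_ge (G : Ribbon k) (hk : 0 < k) (M F : Finset (Fin k)) (hFM : Disjoint F M) (hF : F.Nonempty)
    (hrank : ∀ H : Finset (Fin k), (H ∩ M).Nonempty → 
      (∀ e ∈ H ∩ M, G.comps (H.erase e) = G.comps H) → G.comps H + 2 * (H ∩ M).card + 1 ≤ G.verts)
    (hloop : ∀ H : Finset (Fin k), H.Nonempty → G.comps H + 1 ≤ G.verts) :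
    GE (blk G M F) (4 * M.card - 2 * G.verts + 6) := by
  sorry

/-- D9: the block `F = ∅` (uses D2b) -/
theorem blk_empty (G : Ribbon k) (hk : 0 < k) (M : Finset (Fin k)) 
    (hrank : ∀ H : Finset (Fin k), (H ∩ M).Nonempty → 
      (∀ e ∈ H ∩ M, G.comps (H.erase e) = G.comps H) → G.comps H + 2 * (H ∩ M).card + 1 ≤ G.verts) :
    M.card + 1 ≤ G.verts ∧ 
    blk G M ∅ = (-1) ^ M.card * T (2 * M.card) * (-T 2 - T (-2)) ^ (G.verts - 1 - M.card) := by
  sorry

/-- D10: the lowest coefficient (uses D8, D9) -/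
theorem lowest (G : Ribbon k) (hk : 0 < k) (M : Finset (Fin k)) 
    (hrank : ∀ H : Finset (Fin k), (H ∩ M).Nonempty → 
      (∀ e ∈ H ∩ M, G.comps (H.erase e) = G.comps H) → G.comps H + 2 * (H ∩ M).card + 1 ≤ G.verts)
    (hloop : ∀ H : Finset (Fin k), H.Nonempty → G.comps H + 1 ≤ G.verts) :
    GE (PP G M) (4 * M.card - 2 * G.verts + 2) ∧ 
      |(PP G M).coeff (4 * M.card - 2 * G.verts + 2)| = 1 := by
  sorry

/-- D11: the bracket as a state sum over the subgraphs of any state graph -/
theorem bracket_state (Γ : Ribbon k) (hk : 0 < k) (R S : Finset (Fin k)) :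
    (Γ.link (sg R)).std.bracket = T (2 * (Asm R S).card - k) * PP (stateGraph Γ S) (Asm R S) := by
  sorry

/-- D12: the same with `A` and `A⁻¹` exchanged -/
theorem bracket_state' (Γ : Ribbon k) (hk : 0 < k) (R S : Finset (Fin k)) (j : ℤ) :
    (Γ.link (sg R)).std.bracket.coeff j = 
      (T (2 * ((Asm R S)ᶜ).card - k) * PP (stateGraph Γ S) (Asm R S)ᶜ : ℤ[T;T⁻¹]).coeff (-j) := by
  sorry

end Pool.Agent.H891R2.DS
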